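import Pool.Agent.Lib.MP_962d12_co.Count

set_option autoImplicit false

namespace Pool.Agent.Lib.MP_962d12_co

def t14 : Cert :=
(.split
(.split
(.leaf [.triple (2,0) (0,2) (-1,-1) 13 13 22])
(.leaf [])
(.leaf [])
(.leaf []))
(.split
(.leaf [.triple (1,2) (0,-1) (-2,1) 22 13 13, .triple (2,1) (2,-1) (-2,2) 13 13 22])
(.split
(.leaf [.triple (2,-1) (0,-1) (-1,3) 13 13 22])
(.split
(.leaf [])
(.leaf [])
(.leaf [])
(.leaf []))
(.split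
(.leaf [])
(.leaf [])
(.leaf [])
(.leaf []))
(.leaf [.triple (2,1) (2,-1) (-2,2) 13 13 22]))
(.leaf [])
(.leaf [.triple (2,-1) (0,-1) (-1,3) 13 13 22, .triple (2,1) (0,3) (-1,0) 13 13 22]))
(.split
(.leaf [.triple (2,-2) (1,2) (-1,0) 16 21 13, .triple (2,1) (1,-2) (-1,2) 16 21 13])
(.leaf [])
(.split
(.leaf [.triple (3,-1) (-1,2) (-1,0) 22 13 13])
(.split
(.leaf [])
(.leaf [])
(.leaf [])
(.leaf []))
(.split
(.leaf [])
(.leaf [])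
(.leaf [])
(.leaf []))
(.leaf [.triple (2,-2) (1,2) (-1,2) 22 13 13]))
(.leaf [.triple (3,-1) (-1,2) (-1,0) 22 13 13, .triple (3,0) (1,2) (0,-1) 13 13 22]))
(.split
(.leaf [])
(.leaf [])
(.leaf [])
(.leaf [.triple (2,2) (1,-1) (-1,1) 22 13 13])))

lemma disc14 : DiscBound 14 ((169 : ℤ) / (48 : ℤ)) :=
  discBound_of_check 14 169 48 (by norm_num) (by norm_num) t14 (by decide +kernel)

def t19 : Cert :=
(.split
(.split
(.leaf [.pair (1,2) (0,-2), .pair (2,1) (-2,0)])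
(.leaf [.pair (2,1) (-2,0), .triple (2,-2) (-1,3) (-1,-1) 40 49 19])
(.leaf [.pair (1,2) (0,-2), .triple (3,-1) (-1,-1) (-2,2) 49 19 40])
(.split
(.leaf [])
(.leaf [])
(.leaf [])
(.leaf [.triple (3,-1) (-1,3) (-2,1) 49 19 40])))
(.split
(.leaf [.pair (1,-2) (0,3), .pair (2,-2) (-2,3), .triple (2,1) (-1,3) (-1,-1) 40 19 49])
(.leaf [])
(.leaf [.pair (1,-2) (0,3), .triple (3,-1) (-1,3) (-2,1) 49 19 40, .triple (3,0) (2,-2) (-2,2) 40 19 49])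
(.leaf [.pair (3,-1) (-2,3), .pair (3,0) (-2,1), .triple (2,2) (0,-1) (-2,2) 49 40 19]))
(.split
(.leaf [.pair (3,-2) (-2,2), .pair (3,0) (-2,1), .triple (3,-1) (1,2) (-1,-1) 19 40 49])
(.leaf [.pair (1,-2) (0,3), .triple (3,-1) (-1,3) (-2,1) 49 19 40, .triple (3,0) (2,-2) (-2,2) 40 19 49])
(.leaf [])
(.leaf [.pair (1,-2) (0,3), .pair (3,-2) (-1,3), .triple (2,2) (2,-2) (-1,0) 49 19 40]))
(.split
(.split
(.leaf [.triple (2,-2) (0,3) (-2,2) 49 40 19])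
(.leaf [])
(.leaf [])
(.leaf []))
(.leaf [.pair (1,3) (0,-1), .triple (3,-1) (2,2) (-2,2) 40 19 49])
(.leaf [.pair (3,1) (-1,0), .triple (2,2) (2,-2) (-1,3) 19 49 40])
(.leaf [.pair (1,3) (0,-1), .pair (3,1) (-1,0)])))

lemma disc19 : DiscBound 19 ((133 : ℤ) / (27 : ℤ)) :=
  discBound_of_check 19 133 27 (by norm_num) (by norm_num) t19 (by decide +kernel)

def t20 : Cert :=
(.split
(.leaf [.pair (1,-2) (0,3), .pair (1,2) (0,-2), .pair (2,-2) (-2,3), .pair (2,1) (-2,0), .pair (3,-2) (-2,2), .pair (3,0) (-2,1), .triple (3,-1) (-1,3) (-1,-1) 1 1 1])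
(.split
(.leaf [.pair (0,3) (-1,-1), .pair (2,-2) (-2,3), .pair (2,1) (-2,0)])
(.leaf [])
(.leaf [.pair (1,-2) (0,3), .pair (2,-2) (-2,3), .pair (3,0) (-2,1)])
(.leaf [.pair (1,3) (0,-1), .pair (2,2) (-2,1), .pair (3,-1) (-2,3)]))
(.split
(.leaf [.pair (1,2) (0,-2), .pair (3,-2) (-2,2), .pair (3,0) (-2,1)])
(.leaf [.pair (1,-2) (0,3), .pair (3,-2) (-2,2), .pair (3,0) (-2,1)])
(.leaf [])
(.leaf [.pair (1,-2) (0,3), .pair (3,-2) (-1,3), .pair (3,1) (-1,0)]))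
(.leaf [.pair (1,-2) (0,3), .pair (1,3) (0,-1), .pair (3,-2) (-1,3), .pair (3,-1) (-2,3), .pair (3,0) (-2,1), .pair (3,1) (-1,0), .triple (2,2) (2,-2) (-2,2) 1 1 1]))

lemma disc20 : DiscBound 20 ((21 : ℤ) / (4 : ℤ)) :=
  discBound_of_check 20 21 4 (by norm_num) (by norm_num) t20 (by decide +kernel)

def t22 : Cert :=
(.split
(.split
(.leaf [])
(.leaf [.triple (2,1) (0,-2) (-2,3) 19 26 19])
(.leaf [.triple (3,-2) (1,2) (-2,0) 19 19 26])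
(.leaf [.triple (3,-1) (0,3) (-1,-1) 7 12 13]))
(.split
(.leaf [.triple (2,-2) (0,3) (-2,0) 19 26 19])
(.leaf [])
(.leaf [.triple (3,0) (1,-2) (-2,3) 19 19 26])
(.leaf [.triple (3,-1) (1,3) (-2,1) 19 19 26]))
(.split
(.leaf [.triple (3,0) (0,-2) (-2,2) 26 19 19])
(.leaf [.triple (3,-2) (0,3) (-2,1) 26 19 19])
(.leaf [])
(.leaf [.triple (3,1) (1,-2) (-1,3) 19 26 19]))
(.split
(.leaf [.triple (2,2) (1,-2) (-2,1) 11 7 7])
(.leaf [.triple (3,1) (0,-1) (-2,3) 26 19 19])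
(.leaf [.triple (3,-2) (1,3) (-1,0) 19 26 19])
(.leaf [])))

lemma disc22 : DiscBound 22 ((361 : ℤ) / (64 : ℤ)) :=
  discBound_of_check 22 361 64 (by norm_num) (by norm_num) t22 (by decide +kernel)

def t23 : Cert :=
(.split
(.split
(.leaf [])
(.split
(.leaf [])
(.leaf [.pair (0,3) (0,-2)])
(.leaf [.triple (3,-1) (0,-2) (-2,3) 95 77 117])
(.split
(.leaf [.triple (3,-1) (0,-2) (-2,3) 95 77 117])
(.leaf [.triple (3,-1) (0,3) (-2,0) 95 77 117])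
(.leaf [])
(.leaf [.triple (3,-1) (0,3) (-2,0) 95 77 117])))
(.split
(.leaf [])
(.leaf [.triple (3,-2) (-1,3) (-2,0) 117 95 77])
(.leaf [.pair (3,0) (-2,0)])
(.split
(.leaf [.triple (3,-2) (-1,3) (-2,0) 117 95 77])
(.leaf [])
(.leaf [.triple (3,0) (0,-2) (-1,3) 77 117 95])
(.leaf [.triple (3,0) (0,-2) (-1,3) 77 117 95])))
(.split
(.leaf [])
(.leaf [.triple (3,0) (-1,-1) (-2,3) 117 95 77])
(.leaf [.triple (3,-2) (0,3) (-1,-1) 77 117 95])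
(.split
(.leaf [])
(.leaf [.triple (3,0) (-1,-1) (-2,3) 117 95 77])
(.leaf [.triple (3,-2) (0,3) (-1,-1) 77 117 95])
(.leaf []))))
(.split
(.leaf [.triple (3,-1) (0,3) (-2,0) 95 77 117])
(.split
(.leaf [])
(.leaf [])
(.leaf [])
(.leaf []))
(.split
(.leaf [.triple (3,0) (-1,-1) (-2,3) 117 95 77])
(.leaf [])
(.leaf [])
(.leaf [.triple (2,2) (1,-2) (-2,3) 95 117 77]))
(.leaf [.triple (2,-2) (1,3) (-2,1) 95 117 77]))
(.split
(.leaf [.triple (3,0) (0,-2) (-1,3) 77 117 95])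
(.split
(.leaf [.triple (3,-2) (0,3) (-1,-1) 77 117 95])
(.leaf [])
(.leaf [])
(.leaf [.triple (3,-2) (2,2) (-2,1) 77 95 117]))
(.split
(.leaf [])
(.leaf [])
(.leaf [])
(.leaf []))
(.leaf [.triple (3,1) (1,-2) (-2,2) 117 77 95]))
(.split
(.split
(.split
(.leaf [])
(.leaf [.triple (2,2) (1,-2) (-2,3) 95 117 77])
(.leaf [.triple (3,-2) (2,2) (-2,1) 77 95 117])
(.leaf []))
(.leaf [.triple (2,2) (1,-2) (-2,3) 95 117 77])
(.leaf [.triple (3,-2) (2,2) (-2,1) 77 95 117])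
(.leaf []))
(.split
(.split
(.leaf [.triple (2,-2) (1,3) (-2,1) 95 117 77])
(.leaf [.triple (2,-2) (1,3) (-2,1) 95 117 77])
(.leaf [])
(.leaf [.triple (3,1) (2,-2) (-2,3) 77 95 117]))
(.leaf [.pair (3,1) (-2,1)])
(.leaf [.triple (3,1) (2,-2) (-2,3) 77 95 117])
(.leaf []))
(.split
(.split
(.leaf [.triple (3,1) (1,-2) (-2,2) 117 77 95])
(.leaf [])
(.leaf [.triple (3,1) (1,-2) (-2,2) 117 77 95])
(.leaf [.triple (3,-2) (1,3) (-2,2) 117 77 95]))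
(.leaf [.triple (3,-2) (1,3) (-2,2) 117 77 95])
(.leaf [.pair (1,3) (1,-2)])
(.leaf []))
(.leaf [])))

lemma disc23 : DiscBound 23 ((1729 : ℤ) / (289 : ℤ)) :=
  discBound_of_check 23 1729 289 (by norm_num) (by norm_num) t23 (by decide +kernel)

def t24 : Cert :=
(.split
(.leaf [.triple (3,-2) (-1,-1) (-2,3) 13 1 13, .triple (3,-1) (0,3) (0,-2) 1 13 13, .triple (3,0) (-1,3) (-2,0) 13 1 13])
(.split
(.leaf [.triple (3,-1) (0,3) (0,-2) 1 13 13, .triple (3,0) (-2,3) (-2,0) 21 5 19])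
(.leaf [.pair (2,2) (-1,-1), .triple (1,3) (1,-2) (-2,1) 21 19 5, .triple (3,0) (-2,3) (-2,0) 21 5 19])
(.split
(.leaf [])
(.leaf [.pair (2,2) (-1,-1)])
(.split
(.leaf [])
(.leaf [])
(.leaf [])
(.leaf []))
(.leaf []))
(.leaf [.triple (1,3) (1,-2) (-2,2) 13 13 1, .triple (3,1) (2,-2) (-2,1) 13 1 13]))
(.split
(.leaf [.triple (3,-2) (0,3) (0,-2) 5 21 19, .triple (3,0) (-1,3) (-2,0) 13 1 13])
(.split
(.leaf [])
(.split
(.leaf [])
(.leaf [])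
(.leaf [])
(.leaf []))
(.leaf [.pair (2,2) (-1,-1)])
(.leaf []))
(.leaf [.pair (2,2) (-1,-1), .triple (3,-2) (0,3) (0,-2) 5 21 19, .triple (3,1) (1,-2) (-2,1) 21 5 19])
(.leaf [.triple (1,3) (1,-2) (-2,2) 13 13 1, .triple (3,1) (2,-2) (-2,1) 13 1 13]))
(.leaf [.triple (1,3) (1,-2) (-2,2) 13 13 1, .triple (3,-2) (2,2) (-2,3) 13 1 13, .triple (3,1) (2,-2) (-2,1) 13 1 13]))

lemma disc24 : DiscBound 24 ((169 : ℤ) / (27 : ℤ)) :=
  discBound_of_check 24 169 27 (by norm_num) (by norm_num) t24 (by decide +kernel)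

def t25 : Cert :=
(.split
(.leaf [.triple (3,-2) (-2,3) (-2,0) 21 19 5, .triple (3,0) (0,3) (0,-2) 5 19 21])
(.split
(.leaf [.triple (3,0) (-2,3) (-2,0) 21 5 19])
(.leaf [.pair (1,3) (-2,0), .pair (2,2) (-1,-1)])
(.leaf [.pair (2,2) (-1,-1)])
(.leaf [.triple (1,3) (1,-2) (-2,1) 21 19 5]))
(.split
(.leaf [.triple (3,-2) (0,3) (-2,0) 1 1 1])
(.leaf [.pair (2,2) (-1,-1)])
(.leaf [.pair (2,2) (-1,-1), .pair (3,1) (0,-2)])
(.leaf [.triple (1,3) (1,-2) (-2,1) 21 19 5]))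
(.leaf [.triple (1,3) (1,-2) (-2,1) 21 19 5, .triple (3,1) (3,-2) (-2,3) 5 19 21]))

lemma disc25 : DiscBound 25 ((19 : ℤ) / (3 : ℤ)) :=
  discBound_of_check 25 19 3 (by norm_num) (by norm_num) t25 (by decide +kernel)

def t27 : Cert :=
(.split
(.leaf [.pair (0,3) (-2,-1), .pair (1,-3) (-1,3), .pair (1,2) (-1,-2), .pair (2,-3) (-2,3), .pair (2,2) (-2,0), .pair (3,-2) (-3,2), .pair (3,-1) (-3,1)])
(.leaf [.pair (1,-2) (-1,4), .pair (1,3) (-1,-1), .pair (2,-2) (-2,4), .pair (2,2) (-2,0), .pair (3,-2) (-3,2), .pair (3,-1) (-3,3), .triple (3,1) (0,-2) (-2,1) 7 5 3])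
(.leaf [.pair (1,3) (-1,-1), .pair (2,-3) (-2,3), .pair (2,2) (-2,0), .pair (3,-3) (-1,3), .pair (4,-2) (-2,2), .pair (4,-1) (-2,1), .triple (3,1) (0,3) (0,-2) 5 3 7])
(.leaf [.pair (1,-2) (-1,4), .pair (1,3) (-1,-1), .pair (2,-2) (0,4), .pair (2,3) (-2,1), .pair (3,2) (-1,0), .pair (4,-1) (-2,3), .pair (4,0) (-2,2)]))

lemma disc27 : DiscBound 27 ((7 : ℤ) / (1 : ℤ)) :=
  discBound_of_check 27 7 1 (by norm_num) (by norm_num) t27 (by decide +kernel)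

def t31 : Cert :=
(.split
(.split
(.leaf [.triple (1,-3) (0,3) (-1,-2) 31 59 31, .triple (3,0) (-2,-1) (-3,1) 59 31 31])
(.leaf [.triple (2,-3) (0,3) (-3,3) 75 31 56])
(.leaf [.triple (2,2) (1,-3) (-3,2) 49 45 31])
(.leaf [.triple (2,-3) (1,3) (-3,2) 49 45 31]))
(.leaf [.triple (1,-2) (0,4) (-1,-1) 31 59 31, .triple (1,3) (0,-2) (-1,4) 31 59 31, .triple (3,-2) (-2,4) (-3,3) 59 31 31, .triple (3,0) (2,2) (-3,1) 31 31 59, .triple (3,1) (-2,0) (-3,2) 59 31 31])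
(.leaf [.triple (2,-3) (1,3) (0,-2) 31 59 31, .triple (2,2) (1,-3) (0,3) 31 59 31, .triple (4,-2) (3,-3) (-2,3) 31 31 59, .triple (4,-1) (3,1) (-2,0) 31 31 59, .triple (4,0) (-1,-1) (-2,1) 59 31 31])
(.split
(.leaf [.triple (1,3) (0,-2) (-1,4) 31 59 31])
(.leaf [.triple (1,-2) (0,4) (-1,-1) 31 59 31])
(.leaf [.triple (4,-2) (-1,4) (-2,1) 65 51 31])
(.leaf [.triple (2,3) (1,-2) (0,4) 31 59 31, .triple (4,0) (3,2) (-2,1) 31 31 59])))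

lemma disc31 : DiscBound 31 ((961 : ℤ) / (121 : ℤ)) :=
  discBound_of_check 31 961 121 (by norm_num) (by norm_num) t31 (by decide +kernel)

def t32 : Cert :=
(.split
(.split
(.leaf [.triple (3,0) (0,3) (-2,-1) 56 31 75])
(.leaf [.pair (2,2) (-2,-1)])
(.leaf [.pair (2,2) (-1,-2)])
(.leaf []))
(.split
(.leaf [.triple (1,3) (0,-2) (-3,1) 75 56 31])
(.split
(.leaf [.triple (3,-2) (0,-2) (-2,4) 56 31 75])
(.leaf [])
(.split
(.leaf [.triple (3,-2) (0,-2) (-2,4) 56 31 75])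
(.leaf [])
(.leaf [])
(.leaf [.triple (3,1) (3,-2) (-3,2) 56 31 75]))
(.leaf [.triple (3,1) (3,-2) (-3,2) 56 31 75]))
(.leaf [])
(.leaf [.triple (3,-2) (0,4) (-3,2) 19 14 15]))
(.split
(.leaf [.triple (2,2) (1,-3) (-2,0) 75 56 31])
(.leaf [])
(.split
(.leaf [.triple (4,-2) (-2,3) (-2,0) 75 56 31])
(.split
(.leaf [.triple (4,-2) (-2,3) (-2,0) 75 56 31])
(.leaf [])
(.leaf [])
(.leaf [.triple (2,-3) (1,3) (-2,3) 75 56 31]))
(.leaf [])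
(.leaf [.triple (2,-3) (1,3) (-2,3) 75 56 31]))
(.leaf [.triple (2,-3) (1,3) (-2,3) 75 56 31]))
(.split
(.leaf [])
(.leaf [.pair (2,3) (-1,-1)])
(.leaf [.pair (3,2) (-1,-1)])
(.leaf [.triple (2,3) (1,-2) (-2,1) 75 56 31])))

lemma disc32 : DiscBound 32 ((217 : ℤ) / (27 : ℤ)) :=
  discBound_of_check 32 217 27 (by norm_num) (by norm_num) t32 (by decide +kernel)

def t33 : Cert :=
(.split
(.leaf [.pair (1,3) (-2,-1), .pair (2,2) (-1,-2), .triple (3,-3) (0,3) (-3,1) 19 14 15, .triple (3,0) (1,-3) (-3,3) 14 15 19, .triple (3,1) (2,-3) (-3,2) 45 31 49])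
(.split
(.leaf [.triple (3,-2) (-1,4) (-3,1) 19 15 14, .triple (3,1) (0,-2) (-3,3) 19 14 15])
(.split
(.leaf [.triple (3,-2) (-1,4) (-3,1) 19 15 14])
(.leaf [.triple (3,1) (0,-2) (-3,3) 19 14 15])
(.leaf [.triple (3,1) (0,-2) (-3,3) 19 14 15])
(.leaf [.triple (3,-2) (0,4) (-3,2) 19 14 15]))
(.leaf [.triple (3,1) (0,-2) (-3,3) 19 14 15])
(.leaf [.triple (3,-2) (0,4) (-3,2) 19 14 15, .triple (3,1) (0,-2) (-3,3) 19 14 15]))
(.split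
(.leaf [.triple (3,-3) (1,3) (-2,0) 15 19 14, .triple (3,1) (1,-3) (-2,3) 15 19 14])
(.leaf [.triple (3,-3) (1,3) (-2,0) 15 19 14])
(.split
(.leaf [.triple (3,1) (1,-3) (-2,3) 15 19 14])
(.leaf [.triple (3,-3) (1,3) (-2,0) 15 19 14])
(.leaf [.triple (3,-3) (1,3) (-2,0) 15 19 14])
(.leaf [.triple (4,0) (0,-2) (-2,3) 19 15 14]))
(.leaf [.triple (3,-3) (1,3) (-2,0) 15 19 14, .triple (4,0) (0,-2) (-2,3) 19 15 14]))
(.leaf [.pair (0,4) (0,-2), .pair (3,2) (-2,0), .triple (4,-2) (2,3) (-2,1) 14 15 19, .triple (4,-1) (-1,4) (-1,-1) 1 1 1, .triple (4,0) (1,-2) (-2,4) 15 14 19]))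

lemma disc33 : DiscBound 33 ((133 : ℤ) / (16 : ℤ)) :=
  discBound_of_check 33 133 16 (by norm_num) (by norm_num) t33 (by decide +kernel)

def t34 : Cert :=
(.split
(.leaf [.pair (0,3) (0,-3), .pair (1,3) (-2,-1), .pair (2,2) (-1,-2), .pair (3,-3) (-3,3), .pair (3,0) (-3,0), .pair (3,1) (-3,1)])
(.leaf [.pair (0,4) (0,-2), .pair (3,-2) (-3,4), .pair (3,1) (-3,1)])
(.leaf [.pair (1,3) (1,-3), .pair (4,-3) (-2,3), .pair (4,0) (-2,0)])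
(.leaf [.pair (0,4) (0,-2), .pair (1,4) (1,-2), .pair (2,3) (-2,0), .pair (3,2) (-1,-1), .pair (4,-2) (-2,4), .pair (4,1) (-2,1)]))

lemma disc34 : DiscBound 34 ((9 : ℤ) / (1 : ℤ)) :=
  discBound_of_check 34 9 1 (by norm_num) (by norm_num) t34 (by decide +kernel)

def t37 : Cert :=
(.split
(.leaf [.pair (0,-3) (-2,4), .pair (1,-3) (-1,4), .pair (1,3) (-1,-2), .pair (2,2) (-3,0), .pair (3,1) (-2,-1), .pair (4,-2) (-3,3), .pair (4,-1) (-3,1)])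
(.split
(.leaf [.pair (1,-3) (-1,4), .pair (1,3) (-1,-2)])
(.leaf [])
(.leaf [.pair (2,-3) (0,4), .pair (3,-3) (-2,4), .pair (4,-2) (-3,3)])
(.leaf [.pair (2,3) (0,-2), .pair (3,2) (-2,0)]))
(.split
(.leaf [.pair (1,3) (-1,-2), .pair (3,1) (-2,-1)])
(.leaf [.pair (1,-3) (-1,4), .pair (3,-3) (-2,4), .pair (4,-2) (-3,3)])
(.leaf [])
(.leaf [.pair (2,-3) (0,4), .pair (2,3) (0,-2)]))
(.leaf [.pair (1,4) (-1,-1), .pair (2,-3) (0,4), .pair (2,3) (0,-2), .pair (3,-3) (-2,4), .pair (3,2) (-2,0), .pair (4,-2) (-3,3), .pair (4,0) (-3,2)]))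

lemma disc37 : DiscBound 37 ((39 : ℤ) / (4 : ℤ)) :=
  discBound_of_check 37 39 4 (by norm_num) (by norm_num) t37 (by decide +kernel)

def t38 : Cert :=
(.split
(.split
(.leaf [])
(.leaf [.triple (1,3) (1,-3) (-3,0) 65 37 42, .triple (3,-3) (-1,4) (-2,-1) 775 931 481, .triple (3,1) (-1,-2) (-2,4) 775 931 481])
(.leaf [.triple (3,1) (0,-3) (-3,1) 65 42 37, .triple (4,-2) (1,3) (-2,-1) 481 775 931, .triple (4,-1) (-1,-2) (-3,3) 931 481 775])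
(.split
(.leaf [])
(.leaf [.triple (4,-1) (1,-3) (-2,4) 481 775 931])
(.leaf [.triple (4,-2) (-1,4) (-3,1) 931 481 775])
(.leaf [.triple (4,-2) (-1,4) (-3,1) 931 481 775, .triple (4,-1) (1,-3) (-2,4) 481 775 931])))
(.split
(.leaf [.triple (1,3) (1,-3) (-3,4) 37 65 42, .triple (2,-3) (0,4) (-3,1) 33 35 13, .triple (3,1) (-1,-2) (-2,4) 775 931 481])
(.leaf [])
(.leaf [.triple (3,-3) (0,4) (-3,2) 931 775 481, .triple (4,-2) (-2,4) (-3,1) 65 37 42])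
(.leaf [.triple (3,-2) (2,3) (-3,1) 13 33 35, .triple (3,2) (0,-2) (-3,2) 65 42 37, .triple (4,0) (-2,0) (-3,4) 65 37 42]))
(.split
(.leaf [.triple (4,-3) (2,2) (-3,1) 775 481 931, .triple (4,-2) (1,3) (-2,-1) 481 775 931, .triple (4,0) (-1,-2) (-3,2) 22 13 13])
(.leaf [.triple (4,-2) (1,-3) (-2,4) 37 42 65, .triple (4,0) (2,-3) (-3,3) 775 481 931])
(.leaf [])
(.leaf [.triple (2,3) (2,-3) (-2,0) 65 37 42, .triple (3,2) (1,-3) (-2,3) 33 35 13, .triple (4,-3) (0,4) (-1,-1) 775 931 481]))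
(.split
(.split
(.leaf [.triple (3,-3) (0,4) (-3,2) 931 775 481, .triple (4,0) (2,-3) (-3,3) 775 481 931])
(.leaf [.triple (4,0) (2,-3) (-3,3) 775 481 931])
(.leaf [.triple (3,-3) (0,4) (-3,2) 931 775 481])
(.leaf []))
(.leaf [.triple (3,2) (0,-2) (-3,3) 931 775 481, .triple (4,-2) (2,3) (-3,2) 775 481 931, .triple (4,-1) (1,4) (-2,0) 481 775 931])
(.leaf [.triple (3,-3) (2,3) (-2,0) 481 931 775, .triple (3,2) (2,-3) (-2,4) 481 931 775, .triple (4,1) (0,-2) (-1,4) 775 931 481])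
(.leaf [])))

lemma disc38 : DiscBound 38 ((21793 : ℤ) / (2187 : ℤ)) :=
  discBound_of_check 38 21793 2187 (by norm_num) (by norm_num) t38 (by decide +kernel)

def t39 : Cert :=
(.split
(.leaf [.pair (1,3) (0,-3), .pair (3,1) (-3,0), .triple (3,-3) (-1,4) (-1,-2) 42 65 37, .triple (4,-2) (-2,4) (-3,1) 65 37 42, .triple (4,-1) (-2,-1) (-3,3) 65 37 42])
(.split
(.leaf [.pair (0,4) (-1,-2), .triple (1,3) (1,-3) (-3,4) 37 65 42])
(.leaf [])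
(.leaf [.triple (2,-3) (0,4) (-3,1) 33 35 13])
(.leaf [.pair (3,2) (-3,1), .triple (2,3) (0,-2) (-3,4) 33 35 13]))
(.split
(.leaf [.pair (4,0) (-3,1), .triple (4,-3) (1,3) (-3,2) 35 13 33])
(.leaf [.triple (4,-2) (1,-3) (-2,4) 37 42 65])
(.leaf [])
(.leaf [.pair (1,-3) (0,4), .triple (2,3) (2,-3) (-2,0) 65 37 42]))
(.leaf [.pair (1,4) (0,-2), .pair (4,1) (-2,0), .triple (2,3) (2,-3) (-2,4) 37 65 42, .triple (3,-3) (0,4) (-3,3) 65 42 37, .triple (4,-2) (3,2) (-3,2) 42 37 65]))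

lemma disc39 : DiscBound 39 ((481 : ℤ) / (48 : ℤ)) :=
  discBound_of_check 39 481 48 (by norm_num) (by norm_num) t39 (by decide +kernel)

def t40 : Cert :=
(.split
(.leaf [.pair (1,3) (0,-3), .pair (3,1) (-3,0), .triple (4,-2) (-2,4) (-2,-1) 35 31 24, .triple (4,-1) (-1,4) (-1,-2) 24 31 35])
(.split
(.leaf [.pair (0,4) (-1,-2), .pair (3,-3) (-3,4)])
(.leaf [])
(.leaf [.pair (1,-3) (0,4), .pair (4,0) (-3,1)])
(.leaf [.pair (3,2) (-3,1), .pair (4,-2) (-3,4)]))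
(.split
(.leaf [.pair (4,-3) (-3,3), .pair (4,0) (-3,1)])
(.leaf [.pair (1,-3) (0,4), .pair (4,0) (-3,1)])
(.leaf [])
(.leaf [.pair (1,-3) (0,4), .pair (4,-3) (-2,4)]))
(.leaf [.pair (1,4) (0,-2), .pair (4,1) (-2,0), .triple (2,3) (2,-3) (-3,2) 35 31 24, .triple (3,2) (3,-3) (-3,3) 24 31 35]))

lemma disc40 : DiscBound 40 ((31 : ℤ) / (3 : ℤ)) :=
  discBound_of_check 40 31 3 (by norm_num) (by norm_num) t40 (by decide +kernel)

def t42 : Cert :=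
(.split
(.split
(.leaf [.triple (4,-2) (0,-3) (-1,4) 129 341 371, .triple (4,-1) (-2,4) (-3,0) 371 129 341])
(.split
(.leaf [])
(.leaf [])
(.leaf [.triple (4,-2) (0,-3) (-1,4) 129 341 371, .triple (4,-1) (-2,4) (-3,0) 371 129 341])
(.leaf [.triple (4,-2) (-2,-1) (-3,4) 371 129 341, .triple (4,-1) (-2,4) (-3,0) 371 129 341]))
(.split
(.leaf [])
(.leaf [.triple (4,-2) (0,-3) (-1,4) 129 341 371, .triple (4,-1) (-2,4) (-3,0) 371 129 341])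
(.leaf [])
(.leaf [.triple (4,-3) (-2,4) (-2,-1) 115 112 43, .triple (4,-2) (0,-3) (-1,4) 129 341 371]))
(.leaf [.triple (4,-2) (0,4) (-1,-2) 43 115 112, .triple (4,0) (-2,4) (-2,-1) 115 43 112]))
(.split
(.split
(.leaf [.triple (3,-3) (0,4) (-3,0) 37 47 37])
(.leaf [])
(.leaf [.triple (4,-2) (-2,-1) (-3,4) 371 129 341, .triple (4,-1) (0,4) (-1,-2) 129 341 371])
(.leaf []))
(.leaf [])
(.split
(.leaf [.triple (4,-2) (-2,-1) (-3,4) 371 129 341, .triple (4,-1) (0,4) (-1,-2) 129 341 371])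
(.leaf [.triple (4,0) (1,-3) (-3,4) 37 37 47])
(.leaf [])
(.leaf [.triple (3,-3) (2,3) (-3,4) 371 129 341, .triple (3,2) (2,-3) (-3,1) 371 129 341]))
(.split
(.leaf [])
(.leaf [])
(.leaf [.triple (3,-3) (2,3) (-3,4) 371 129 341, .triple (3,2) (2,-3) (-3,1) 371 129 341])
(.leaf [.triple (4,-2) (1,4) (-3,1) 37 37 47])))
(.split
(.split
(.leaf [.triple (4,0) (0,-3) (-3,3) 47 37 37])
(.leaf [.triple (4,-3) (-1,-2) (-2,4) 341 129 371, .triple (4,0) (-1,4) (-2,-1) 341 129 371])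
(.leaf [])
(.leaf []))
(.split
(.leaf [.triple (4,-3) (-1,-2) (-2,4) 341 129 371, .triple (4,0) (-1,4) (-2,-1) 341 129 371])
(.leaf [])
(.leaf [.triple (4,-3) (0,4) (-3,1) 47 37 37])
(.leaf [.triple (2,3) (1,-3) (-3,2) 371 341 129, .triple (4,-3) (3,2) (-3,3) 341 129 371]))
(.leaf [])
(.split
(.leaf [])
(.leaf [.triple (2,3) (1,-3) (-3,2) 371 341 129, .triple (4,-3) (3,2) (-3,3) 341 129 371])
(.leaf [])
(.leaf [.triple (4,1) (1,-3) (-2,4) 37 47 37])))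
(.split
(.leaf [.triple (2,3) (1,-3) (-3,2) 371 341 129, .triple (3,2) (2,-3) (-3,1) 371 129 341])
(.split
(.leaf [.triple (2,-3) (1,4) (-3,2) 112 115 43, .triple (3,-3) (2,3) (-3,4) 371 129 341])
(.leaf [])
(.leaf [.triple (2,-3) (1,4) (-3,3) 371 341 129, .triple (4,1) (3,-3) (-3,2) 341 129 371])
(.leaf []))
(.split
(.leaf [.triple (4,-3) (2,3) (-3,3) 115 43 112, .triple (4,1) (2,-3) (-3,2) 115 43 112])
(.leaf [.triple (2,-3) (1,4) (-3,3) 371 341 129, .triple (4,1) (3,-3) (-3,2) 341 129 371])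
(.leaf [])
(.leaf []))
(.leaf [.triple (2,-3) (1,4) (-3,3) 371 341 129, .triple (4,1) (3,-3) (-3,2) 341 129 371])))

lemma disc42 : DiscBound 42 ((9331 : ℤ) / (841 : ℤ)) :=
  discBound_of_check 42 9331 841 (by norm_num) (by norm_num) t42 (by decide +kernel)

def t44 : Cert :=
(.split
(.split
(.leaf [])
(.leaf [.triple (4,-2) (0,4) (-3,0) 185 169 224, .triple (4,-1) (0,-3) (-3,4) 185 169 224])
(.leaf [.triple (4,-3) (-1,4) (-3,0) 224 185 169, .triple (4,0) (0,-3) (-2,4) 169 224 185])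
(.split
(.leaf [])
(.leaf [.triple (4,0) (-1,-2) (-3,4) 224 185 169])
(.leaf [.triple (4,-3) (0,4) (-2,-1) 169 224 185])
(.leaf [])))
(.split
(.leaf [.triple (4,-2) (0,4) (-3,0) 185 169 224])
(.split
(.leaf [])
(.leaf [])
(.leaf [.pair (2,3) (-2,-1)])
(.leaf []))
(.split
(.leaf [.triple (4,0) (-1,-2) (-3,4) 224 185 169])
(.leaf [.pair (2,3) (-2,-1)])
(.split
(.leaf [.triple (4,0) (-1,-2) (-3,4) 224 185 169])
(.leaf [])
(.leaf [])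
(.leaf [.triple (3,2) (1,-3) (-3,4) 185 224 169]))
(.leaf [.triple (3,2) (1,-3) (-3,4) 185 224 169]))
(.leaf [.triple (3,-3) (1,4) (-3,1) 185 224 169]))
(.split
(.leaf [.triple (4,0) (0,-3) (-2,4) 169 224 185])
(.split
(.leaf [.triple (4,-3) (0,4) (-2,-1) 169 224 185])
(.split
(.leaf [.triple (4,-3) (0,4) (-2,-1) 169 224 185])
(.leaf [])
(.leaf [])
(.leaf [.triple (4,-3) (2,3) (-3,1) 169 185 224]))
(.leaf [.pair (3,2) (-1,-2)])
(.leaf [.triple (4,-3) (2,3) (-3,1) 169 185 224]))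
(.split
(.leaf [])
(.leaf [.pair (3,2) (-1,-2)])
(.leaf [])
(.leaf []))
(.leaf [.triple (4,1) (1,-3) (-3,3) 224 169 185]))
(.split
(.split
(.leaf [])
(.leaf [.triple (3,2) (1,-3) (-3,4) 185 224 169])
(.leaf [.triple (4,-3) (2,3) (-3,1) 169 185 224])
(.leaf []))
(.leaf [.triple (3,-3) (1,4) (-3,1) 185 224 169, .triple (4,1) (2,-3) (-3,4) 169 185 224])
(.leaf [.triple (4,-3) (1,4) (-3,2) 224 169 185, .triple (4,1) (1,-3) (-3,3) 224 169 185])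
(.leaf [])))

lemma disc44 : DiscBound 44 ((3367 : ℤ) / (289 : ℤ)) :=
  discBound_of_check 44 3367 289 (by norm_num) (by norm_num) t44 (by decide +kernel)

def t45 : Cert :=
(.split
(.split
(.leaf [.pair (1,3) (-2,-2), .pair (2,-4) (-1,4), .pair (4,-3) (-3,4), .pair (4,-1) (-4,2)])
(.leaf [.pair (0,4) (0,-3), .pair (4,-2) (-4,3), .pair (4,-1) (-4,2)])
(.leaf [.pair (2,-4) (-1,4), .pair (3,-4) (-2,4), .pair (4,0) (-3,0)])
(.leaf [.pair (0,4) (0,-3), .pair (2,3) (-1,-2), .pair (3,2) (-2,-1), .pair (4,-3) (-3,4), .pair (4,0) (-3,0)]))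
(.split
(.leaf [.pair (0,4) (0,-3), .pair (2,3) (-1,-2), .pair (4,-2) (-4,3), .pair (4,-1) (-4,2), .pair (4,0) (-3,0)])
(.leaf [.pair (1,4) (1,-3), .pair (2,3) (-1,-2), .pair (3,-3) (-2,5), .pair (3,2) (-2,-1), .pair (4,-2) (-4,3), .pair (4,0) (-3,0)])
(.leaf [.pair (2,3) (-1,-2), .pair (3,2) (-2,-1), .pair (4,-3) (-3,4)])
(.leaf [.pair (1,4) (1,-3), .pair (2,-3) (-1,5), .pair (3,-3) (-2,5), .pair (3,2) (-2,-1), .pair (4,1) (-3,1)]))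
(.split
(.leaf [.pair (0,4) (0,-3), .pair (2,-4) (-1,4), .pair (3,-4) (-2,4), .pair (3,2) (-2,-1), .pair (4,0) (-3,0)])
(.leaf [.pair (2,3) (-1,-2), .pair (3,2) (-2,-1), .pair (4,-3) (-3,4)])
(.leaf [.pair (0,4) (0,-3), .pair (2,3) (-1,-2), .pair (3,-4) (-2,4), .pair (3,2) (-2,-1), .pair (4,1) (-3,1), .pair (5,-2) (-3,3)])
(.leaf [.pair (1,4) (1,-3), .pair (2,3) (-1,-2), .pair (4,1) (-3,1), .pair (5,-2) (-3,3), .pair (5,-1) (-3,2)]))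
(.split
(.leaf [.pair (1,4) (1,-3), .pair (2,3) (-1,-2), .pair (3,2) (-2,-1), .pair (4,-3) (-3,4), .pair (4,1) (-3,1)])
(.leaf [.pair (2,-3) (-1,5), .pair (3,-3) (-2,5), .pair (4,1) (-3,1)])
(.leaf [.pair (1,4) (1,-3), .pair (5,-2) (-3,3), .pair (5,-1) (-3,2)])
(.leaf [.pair (2,-3) (-1,5), .pair (3,3) (-2,0), .pair (4,-3) (-3,4), .pair (5,-1) (-3,2)])))

lemma disc45 : DiscBound 45 ((49 : ℤ) / (4 : ℤ)) :=
  discBound_of_check 45 49 4 (by norm_num) (by norm_num) t45 (by decide +kernel)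

def t48 : Cert :=
(.split
(.split
(.leaf [.triple (3,-4) (-1,4) (-4,2) 57 43 28, .triple (4,-3) (-2,-2) (-3,4) 31 13 31, .triple (4,-1) (2,-4) (-4,3) 43 28 57])
(.leaf [.pair (4,-3) (-4,3), .pair (4,0) (-4,2)])
(.leaf [.pair (2,-4) (0,4), .pair (3,-4) (-3,4)])
(.leaf [.pair (2,3) (0,-3), .pair (3,2) (-3,0)]))
(.split
(.leaf [.pair (2,3) (0,-3), .pair (3,2) (-3,0), .pair (4,0) (-4,2)])
(.split
(.leaf [.triple (3,2) (-1,-2) (-4,3) 57 43 28, .triple (4,-2) (2,3) (-4,2) 43 28 57, .triple (4,0) (-2,5) (-3,0) 31 13 31])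
(.split
(.leaf [.triple (4,-2) (2,3) (-4,2) 43 28 57, .triple (4,0) (-2,5) (-3,0) 31 13 31])
(.split
(.leaf [])
(.leaf [])
(.leaf [.triple (3,2) (-1,-2) (-4,3) 57 43 28])
(.leaf []))
(.leaf [.triple (3,2) (-1,-2) (-4,3) 57 43 28])
(.leaf [.triple (1,4) (1,-3) (-4,3) 31 31 13, .triple (3,-3) (-1,5) (-2,-1) 43 57 28]))
(.split
(.leaf [])
(.leaf [.triple (3,2) (-1,-2) (-4,3) 57 43 28])
(.leaf [])
(.leaf []))
(.leaf [.triple (1,4) (1,-3) (-4,3) 31 31 13, .triple (3,-3) (-1,5) (-2,-1) 43 57 28, .triple (3,2) (-1,-2) (-2,5) 43 57 28]))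
(.leaf [.pair (1,4) (-1,-2), .pair (3,2) (-3,0)])
(.leaf [.pair (1,-3) (-1,5), .pair (1,4) (-1,-2), .pair (4,1) (-2,-1)]))
(.split
(.leaf [.pair (2,-4) (0,4), .pair (2,3) (0,-3), .pair (3,2) (-3,0)])
(.leaf [.pair (2,3) (0,-3), .pair (4,1) (-2,-1)])
(.split
(.leaf [.triple (3,-4) (2,3) (-2,-1) 28 57 43, .triple (3,2) (2,-4) (-2,4) 28 57 43, .triple (5,-2) (0,4) (0,-3) 13 31 31])
(.split
(.leaf [])
(.leaf [])
(.leaf [.triple (3,-4) (2,3) (-2,-1) 28 57 43])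
(.leaf []))
(.split
(.leaf [.triple (3,2) (2,-4) (-2,4) 28 57 43, .triple (5,-2) (0,4) (0,-3) 13 31 31])
(.leaf [.triple (3,-4) (2,3) (-2,-1) 28 57 43])
(.split
(.leaf [])
(.leaf [.triple (3,-4) (2,3) (-2,-1) 28 57 43])
(.leaf [])
(.leaf []))
(.leaf [.triple (4,1) (3,-4) (-3,1) 31 13 31, .triple (5,-1) (-1,-2) (-3,3) 57 28 43]))
(.leaf [.triple (4,1) (3,-4) (-3,1) 31 13 31, .triple (5,-2) (2,3) (-2,-1) 28 43 57, .triple (5,-1) (-1,-2) (-3,3) 57 28 43]))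
(.leaf [.pair (1,4) (-1,-2), .pair (4,1) (-2,-1), .pair (5,-1) (-3,1)]))
(.split
(.leaf [.pair (1,4) (-1,-2), .pair (4,1) (-2,-1)])
(.leaf [.pair (1,-3) (-1,5), .pair (4,-3) (-2,5)])
(.leaf [.pair (5,-2) (-3,4), .pair (5,-1) (-3,1)])
(.leaf [.triple (4,-3) (3,3) (-3,4) 31 13 31, .triple (5,-2) (-1,5) (-3,2) 57 28 43, .triple (5,-1) (2,-3) (-2,5) 28 43 57])))

lemma disc48 : DiscBound 48 ((817 : ℤ) / (64 : ℤ)) :=
  discBound_of_check 48 817 64 (by norm_num) (by norm_num) t48 (by decide +kernel)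

def t49 : Cert :=
(.split
(.split
(.leaf [.pair (1,-4) (-1,4), .pair (1,3) (-1,-3), .pair (3,-4) (-3,4), .pair (3,1) (-3,-1), .pair (4,-3) (-4,3), .pair (4,-1) (-4,1)])
(.leaf [.pair (4,-3) (-4,3)])
(.leaf [.pair (2,-4) (0,4)])
(.leaf [.pair (2,3) (0,-3)]))
(.split
(.leaf [.pair (2,3) (0,-3), .pair (3,2) (-3,0)])
(.leaf [.pair (1,-3) (-1,5), .pair (1,4) (-1,-2), .pair (3,-3) (-3,5), .pair (3,2) (-3,0), .pair (4,-2) (-4,4), .pair (4,0) (-4,2)])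
(.leaf [.pair (1,4) (-1,-2)])
(.leaf [.pair (1,-3) (-1,5), .pair (1,4) (-1,-2)]))
(.split
(.leaf [.pair (2,-4) (0,4), .pair (2,3) (0,-3)])
(.leaf [.pair (2,3) (0,-3)])
(.leaf [.pair (2,-4) (0,4), .pair (2,3) (0,-3), .pair (4,-4) (-2,4), .pair (4,1) (-2,-1), .pair (5,-3) (-3,3), .pair (5,-1) (-3,1)])
(.leaf [.pair (1,4) (-1,-2), .pair (4,1) (-2,-1)]))
(.split
(.leaf [.pair (1,4) (-1,-2)])
(.leaf [.pair (1,-3) (-1,5)])
(.leaf [.pair (5,-2) (-3,4)])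
(.leaf [.pair (2,-3) (0,5), .pair (2,4) (0,-2), .pair (4,-3) (-2,5), .pair (4,2) (-2,0), .pair (5,-2) (-3,4), .pair (5,0) (-3,2)])))

lemma disc49 : DiscBound 49 ((13 : ℤ) / (1 : ℤ)) :=
  discBound_of_check 49 13 1 (by norm_num) (by norm_num) t49 (by decide +kernel)

def t55 : Cert :=
(.split
(.split
(.leaf [.triple (1,-4) (0,4) (-1,-3) 19 37 19, .triple (4,0) (-3,-1) (-4,1) 37 19 19])
(.leaf [.pair (2,3) (-3,-1), .pair (3,2) (-2,-2), .triple (3,-4) (0,4) (-4,4) 60 19 49])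
(.leaf [.pair (2,3) (-2,-2), .pair (3,2) (-1,-3), .triple (4,-4) (-3,4) (-4,3) 37 19 19])
(.leaf [.triple (2,-4) (1,4) (-4,2) 39 40 19]))
(.leaf [.triple (1,-3) (0,5) (-1,-2) 19 37 19, .triple (1,4) (0,-3) (-1,5) 19 37 19, .triple (4,-3) (-3,5) (-4,4) 37 19 19, .triple (4,0) (3,2) (-4,1) 19 19 37, .triple (4,1) (-3,0) (-4,2) 37 19 19])
(.leaf [.triple (2,-4) (1,4) (0,-3) 19 37 19, .triple (2,3) (1,-4) (0,4) 19 37 19, .triple (5,-3) (4,-4) (-3,4) 19 19 37, .triple (5,-1) (4,1) (-3,0) 19 19 37, .triple (5,0) (-2,-1) (-3,1) 37 19 19])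
(.split
(.leaf [.triple (1,4) (0,-3) (-1,5) 19 37 19])
(.leaf [.pair (2,4) (-2,-1), .pair (3,3) (-1,-2), .triple (5,-2) (-3,5) (-3,1) 60 49 19])
(.leaf [.pair (3,3) (-2,-1), .pair (4,2) (-1,-2), .triple (5,-3) (-2,5) (-3,1) 49 40 19])
(.leaf [.triple (2,4) (1,-3) (0,5) 19 37 19, .triple (5,0) (4,2) (-3,1) 19 19 37])))

lemma disc55 : DiscBound 55 ((361 : ℤ) / (25 : ℤ)) :=
  discBound_of_check 55 361 25 (by norm_num) (by norm_num) t55 (by decide +kernel)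

end Pool.Agent.Lib.MP_962d12_co
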