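import Mathlib

set_option autoImplicit false

namespace Pool.Agent.Lib.MP_962d12_co

/-- the quadratic form `x² + xy + y²` over `ℤ` -/
def Qi (x y : ℤ) : ℤ := x * x + x * y + y * y

/-- the quadratic form `x² + xy + y²` over `ℝ` -/
def Qr (x y : ℝ) : ℝ := x ^ 2 + x * y + y ^ 2

lemma Qr_nonneg (x y : ℝ) : 0 ≤ Qr x y := by
  unfold Qr; nlinarith [sq_nonneg (x + y), sq_nonneg x, sq_nonneg y]

lemma Qi_cast (x y : ℤ) : ((Qi x y : ℤ) : ℝ) = Qr x y := by
  unfold Qi Qr; push_cast; ring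

/-- a set of lattice points that is contained in no open disc of squared radius `num/den` -/
inductive Grp
  | pair (a b : ℤ × ℤ)
  | triple (a b c : ℤ × ℤ) (u v w : ℕ)

inductive Cert
  | leaf (gs : List Grp)
  | split (a b c d : Cert)

def Grp.pts : Grp → List (ℤ × ℤ)
  | .pair a b => [a, b]
  | .triple a b c _ _ _ => [a, b, c]

def Grp.ok (num den : ℤ) : Grp → Bool
  | .pair a b => decide (4 * num ≤ den * Qi (a.1 - b.1) (a.2 - b.2))
  | .triple a b c u v w =>
    decide (0 < u + v + w) &&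
    decide (num * ((u + v + w) * (u + v + w)) ≤ den *
      (u * v * Qi (a.1 - b.1) (a.2 - b.2) + u * w * Qi (a.1 - c.1) (a.2 - c.2) +
        v * w * Qi (b.1 - c.1) (b.2 - c.2)))

def win : List (ℤ × ℤ) :=
  (List.range 10).flatMap fun i : ℕ => (List.range 10).map fun j : ℕ => ((i : ℤ) - 4, (j : ℤ) - 4)

def cand (num den sc S T : ℤ) : List (ℤ × ℤ) :=
  win.filter fun p =>
    let u := p.1 * sc - (2 * S + 1)
    let v := p.2 * sc - (2 * T + 1)
    decide ((Qi u v - (((2 * u + v).natAbs : ℤ) + ((u + 2 * v).natAbs : ℤ))) * den < num * (sc * sc))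

def bd : List (ℤ × ℤ) → List Grp → ℕ
  | C, [] => C.length
  | C, g :: gs => (g.pts.length - 1) + bd (C.filter fun p => !(g.pts.contains p)) gs

def check (K : ℕ) (num den : ℤ) : Cert → ℤ → ℤ → ℤ → Bool
  | .leaf gs, sc, S, T => gs.all (Grp.ok num den) && decide (bd (cand num den sc S T) gs ≤ K)
  | .split a b c d, sc, S, T =>
    check K num den a (2 * sc) (2 * S) (2 * T) &&
    check K num den b (2 * sc) (2 * S) (2 * T + 1) &&
    check K num den c (2 * sc) (2 * S + 1) (2 * T) &&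
    check K num den d (2 * sc) (2 * S + 1) (2 * T + 1)

lemma mem_win (p : ℤ × ℤ) (h1 : -4 ≤ p.1) (h2 : p.1 ≤ 5) (h3 : -4 ≤ p.2) (h4 : p.2 ≤ 5) :
    p ∈ win := by
  unfold win
  rw [List.mem_flatMap]
  have a1 : (p.1 + 4).toNat < 10 := by omega
  have a2 : (p.2 + 4).toNat < 10 := by omega
  refine ⟨(p.1 + 4).toNat, List.mem_range.2 a1, List.mem_map.2
    ⟨(p.2 + 4).toNat, List.mem_range.2 a2, ?_⟩⟩
  have b1 : (((p.1 + 4).toNat : ℕ) : ℤ) - 4 = p.1 := by omega
  have b2 : (((p.2 + 4).toNat : ℕ) : ℤ) - 4 = p.2 := by omega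
  rw [b1, b2]

lemma mem_cand (num den sc S T : ℤ) (x y : ℝ) (hden : 0 < den) (hR : 4 * num ≤ 75 * den)
    (hx0 : 0 ≤ x) (hx1 : x ≤ 1) (hy0 : 0 ≤ y) (hy1 : y ≤ 1) (hsc : 0 < sc)
    (hS1 : 2 * (S : ℝ) ≤ sc * x) (hS2 : sc * x ≤ 2 * S + 2)
    (hT1 : 2 * (T : ℝ) ≤ sc * y) (hT2 : sc * y ≤ 2 * T + 2)
    (p : ℤ × ℤ) (hp : den * Qr (p.1 - x) (p.2 - y) < num) : p ∈ cand num den sc S T := by
  have hdr : (0 : ℝ) < den := by exact_mod_cast hden
  have hRr : 4 * (num : ℝ) ≤ 75 * den := by exact_mod_cast hR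
  have hscr : (0 : ℝ) < sc := by exact_mod_cast hsc
  have hq1 : 3 / 4 * ((p.1 : ℝ) - x) ^ 2 ≤ Qr (p.1 - x) (p.2 - y) := by
    unfold Qr; nlinarith [sq_nonneg (((p.1 : ℝ) - x) + 2 * (p.2 - y))]
  have hq2 : 3 / 4 * ((p.2 : ℝ) - y) ^ 2 ≤ Qr (p.1 - x) (p.2 - y) := by
    unfold Qr; nlinarith [sq_nonneg (2 * ((p.1 : ℝ) - x) + (p.2 - y))]
  have hq : Qr (p.1 - x) (p.2 - y) < 75 / 4 := by
    by_contra hcon
    push Not at hcon
    have := mul_le_mul_of_nonneg_left hcon hdr.le
    linarith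
  have hb1 : ((p.1 : ℝ) - x) ^ 2 < 5 ^ 2 := by linarith
  have hb2 : ((p.2 : ℝ) - y) ^ 2 < 5 ^ 2 := by linarith
  have hc1 := abs_lt.1 (abs_lt_of_sq_lt_sq hb1 (by norm_num))
  have hc2 := abs_lt.1 (abs_lt_of_sq_lt_sq hb2 (by norm_num))
  have hw : p ∈ win := by
    apply mem_win
    · have : (-5 : ℝ) < p.1 := by linarith
      have : (-5 : ℤ) < p.1 := by exact_mod_cast this
      omega
    · have : (p.1 : ℝ) < 6 := by linarith
      have : p.1 < (6 : ℤ) := by exact_mod_cast this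
      omega
    · have : (-5 : ℝ) < p.2 := by linarith
      have : (-5 : ℤ) < p.2 := by exact_mod_cast this
      omega
    · have : (p.2 : ℝ) < 6 := by linarith
      have : p.2 < (6 : ℤ) := by exact_mod_cast this
      omega
  unfold cand
  rw [List.mem_filter]
  refine ⟨hw, ?_⟩
  simp only [decide_eq_true_eq]
  set u : ℤ := p.1 * sc - (2 * S + 1) with hu
  set v : ℤ := p.2 * sc - (2 * T + 1) with hv
  have hur : (u : ℝ) = p.1 * sc - (2 * S + 1) := by rw [hu]; push_cast; ring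
  have hvr : (v : ℝ) = p.2 * sc - (2 * T + 1) := by rw [hv]; push_cast; ring
  set e : ℝ := sc * x - (2 * S + 1) with he
  set f : ℝ := sc * y - (2 * T + 1) with hf
  have he1 : |e| ≤ 1 := abs_le.2 ⟨by rw [he]; linarith, by rw [he]; linarith⟩
  have hf1 : |f| ≤ 1 := abs_le.2 ⟨by rw [hf]; linarith, by rw [hf]; linarith⟩
  have g1 : (u : ℝ) - e = sc * (p.1 - x) := by rw [hur, he]; ring
  have g2 : (v : ℝ) - f = sc * (p.2 - y) := by rw [hvr, hf]; ring
  have g3 : Qr (u - e) (v - f) = (sc * sc) * Qr (p.1 - x) (p.2 - y) := by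
    rw [g1, g2]; unfold Qr; ring
  have g4 : Qr (u - e) (v - f) = Qr u v - e * (2 * u + v) - f * (u + 2 * v) + Qr e f := by
    unfold Qr; ring
  have g5 : e * (2 * u + v) ≤ |2 * (u : ℝ) + v| := by
    calc e * (2 * u + v) ≤ |e * (2 * u + v)| := le_abs_self _
      _ = |e| * |2 * (u : ℝ) + v| := abs_mul _ _
      _ ≤ 1 * |2 * (u : ℝ) + v| := mul_le_mul_of_nonneg_right he1 (abs_nonneg _)
      _ = _ := one_mul _
  have g6 : f * (u + 2 * v) ≤ |(u : ℝ) + 2 * v| := by
    calc f * (u + 2 * v) ≤ |f * (u + 2 * v)| := le_abs_self _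
      _ = |f| * |(u : ℝ) + 2 * v| := abs_mul _ _
      _ ≤ 1 * |(u : ℝ) + 2 * v| := mul_le_mul_of_nonneg_right hf1 (abs_nonneg _)
      _ = _ := one_mul _
  have g7 : Qr u v - (|2 * (u : ℝ) + v| + |(u : ℝ) + 2 * v|) ≤ (sc * sc) * Qr (p.1 - x) (p.2 - y) := by
    rw [← g3, g4]
    linarith [Qr_nonneg e f]
  have g8 : (Qr u v - (|2 * (u : ℝ) + v| + |(u : ℝ) + 2 * v|)) * den < num * (sc * sc) := by
    calc (Qr u v - (|2 * (u : ℝ) + v| + |(u : ℝ) + 2 * v|)) * den
        ≤ ((sc * sc) * Qr (p.1 - x) (p.2 - y)) * den := mul_le_mul_of_nonneg_right g7 hdr.le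
      _ = (sc * sc) * (den * Qr (p.1 - x) (p.2 - y)) := by ring
      _ < (sc * sc) * num := mul_lt_mul_of_pos_left hp (by positivity)
      _ = _ := by ring
  have g9 : (((Qi u v - (((2 * u + v).natAbs : ℤ) + ((u + 2 * v).natAbs : ℤ))) * den : ℤ) : ℝ) <
      ((num * (sc * sc) : ℤ) : ℝ) := by
    push_cast
    rw [Qi_cast]
    exact g8
  exact_mod_cast g9

lemma Grp.not_all (num den : ℤ) (hden : 0 < den) (g : Grp) (hg : g.ok num den = true) (x y : ℝ) :
    ∃ p ∈ g.pts, ¬ ((den : ℝ) * Qr ((p : ℤ × ℤ).1 - x) (p.2 - y) < num) := by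
  have hdr : (0 : ℝ) < den := by exact_mod_cast hden
  by_contra hcon
  push Not at hcon
  cases g with
  | pair a b =>
    have ha := hcon a (by simp [Grp.pts])
    have hb := hcon b (by simp [Grp.pts])
    simp only [Grp.ok, decide_eq_true_eq] at hg
    have hgr : 4 * (num : ℝ) ≤ den * Qr (a.1 - b.1) (a.2 - b.2) := by
      have : (((4 * num : ℤ)) : ℝ) ≤ ((den * Qi (a.1 - b.1) (a.2 - b.2) : ℤ) : ℝ) := by
        exact_mod_cast hg
      push_cast [Qi_cast] at this
      exact this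
    have id1 : 2 * (Qr (a.1 - x) (a.2 - y) + Qr (b.1 - x) (b.2 - y)) =
        Qr (a.1 - b.1) (a.2 - b.2) + Qr (a.1 + b.1 - 2 * x) (a.2 + b.2 - 2 * y) := by
      unfold Qr; ring
    have id2 := Qr_nonneg (a.1 + b.1 - 2 * x) (a.2 + b.2 - 2 * y)
    have id3 : (den : ℝ) * Qr (a.1 - b.1) (a.2 - b.2) ≤
        den * (2 * (Qr (a.1 - x) (a.2 - y) + Qr (b.1 - x) (b.2 - y))) :=
      mul_le_mul_of_nonneg_left (by linarith) hdr.le
    nlinarith
  | triple a b c u v w =>
    have ha := hcon a (by simp [Grp.pts])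
    have hb := hcon b (by simp [Grp.pts])
    have hc := hcon c (by simp [Grp.pts])
    simp only [Grp.ok, Bool.and_eq_true, decide_eq_true_eq] at hg
    obtain ⟨hg1, hg2⟩ := hg
    have hu : (0 : ℝ) ≤ u := Nat.cast_nonneg _
    have hv : (0 : ℝ) ≤ v := Nat.cast_nonneg _
    have hw : (0 : ℝ) ≤ w := Nat.cast_nonneg _
    have hW : (0 : ℝ) < u + v + w := by exact_mod_cast hg1
    set W : ℝ := u + v + w with hWdef
    have hgr : (num : ℝ) * (W * W) ≤ den *
      (u * v * Qr (a.1 - b.1) (a.2 - b.2) + u * w * Qr (a.1 - c.1) (a.2 - c.2) +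
        v * w * Qr (b.1 - c.1) (b.2 - c.2)) := by
      have : (((num * (((u : ℤ) + v + w) * (u + v + w)) : ℤ)) : ℝ) ≤ ((den *
      (u * v * Qi (a.1 - b.1) (a.2 - b.2) + u * w * Qi (a.1 - c.1) (a.2 - c.2) +
        v * w * Qi (b.1 - c.1) (b.2 - c.2)) : ℤ) : ℝ) := by
        exact_mod_cast hg2
      push_cast [Qi_cast] at this
      exact this
    set A := Qr (a.1 - x) (a.2 - y) with hA
    set B := Qr (b.1 - x) (b.2 - y) with hB
    set C := Qr (c.1 - x) (c.2 - y) with hC
    have id1 : W * (u * A + v * B + w * C) =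
        (u * v * Qr (a.1 - b.1) (a.2 - b.2) + u * w * Qr (a.1 - c.1) (a.2 - c.2) +
        v * w * Qr (b.1 - c.1) (b.2 - c.2)) +
        Qr (u * (a.1 - x) + v * (b.1 - x) + w * (c.1 - x))
          (u * (a.2 - y) + v * (b.2 - y) + w * (c.2 - y)) := by
      rw [hWdef, hA, hB, hC]; unfold Qr; ring
    have id2 := Qr_nonneg (u * (a.1 - x) + v * (b.1 - x) + w * (c.1 - x))
          (u * (a.2 - y) + v * (b.2 - y) + w * (c.2 - y))
    have id3 : (num : ℝ) * (W * W) ≤ den * (W * (u * A + v * B + w * C)) := by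
      refine hgr.trans (mul_le_mul_of_nonneg_left (by linarith) hdr.le)
    have id4 : (num : ℝ) * W ≤ den * (u * A + v * B + w * C) := by
      have : ((num : ℝ) * W) * W ≤ (den * (u * A + v * B + w * C)) * W := by linarith
      exact le_of_mul_le_mul_right this hW
    have id5 : (0 : ℝ) ≤ u * (num - den * A) := mul_nonneg hu (by linarith)
    have id6 : (0 : ℝ) ≤ v * (num - den * B) := mul_nonneg hv (by linarith)
    have id7 : (0 : ℝ) ≤ w * (num - den * C) := mul_nonneg hw (by linarith)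
    have id8 : (u : ℝ) * (num - den * A) + v * (num - den * B) + w * (num - den * C) ≤ 0 := by
      have : (u : ℝ) * (num - den * A) + v * (num - den * B) + w * (num - den * C) =
        num * W - den * (u * A + v * B + w * C) := by rw [hWdef]; ring
      linarith
    have e5 : (u : ℝ) * (num - den * A) = 0 := by linarith
    have e6 : (v : ℝ) * (num - den * B) = 0 := by linarith
    have e7 : (w : ℝ) * (num - den * C) = 0 := by linarith
    have f5 : (u : ℝ) = 0 := (mul_eq_zero.1 e5).resolve_right (by linarith)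
    have f6 : (v : ℝ) = 0 := (mul_eq_zero.1 e6).resolve_right (by linarith)
    have f7 : (w : ℝ) = 0 := (mul_eq_zero.1 e7).resolve_right (by linarith)
    linarith

lemma card_le_bd (num den : ℤ) (hden : 0 < den) (x y : ℝ) (gs : List Grp) :
    ∀ (C : List (ℤ × ℤ)) (F : Finset (ℤ × ℤ)), gs.all (Grp.ok num den) = true →
      (∀ p ∈ F, p ∈ C) → (∀ p ∈ F, (den : ℝ) * Qr (p.1 - x) (p.2 - y) < num) →
      F.card ≤ bd C gs := by
  induction gs with
  | nil =>
    intro C F _ h1 _
    have : F ⊆ C.toFinset := fun p hp => List.mem_toFinset.2 (h1 p hp)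
    exact (Finset.card_le_card this).trans (List.toFinset_card_le C)
  | cons g gs ih =>
    intro C F hall h1 h2
    rw [List.all_cons, Bool.and_eq_true] at hall
    obtain ⟨p, hp, hnp⟩ := Grp.not_all num den hden g hall.1 x y
    have hpF : p ∉ F := fun h => hnp (h2 p h)
    have h3 := ih (C.filter fun q => !(g.pts.contains q)) (F.filter fun q => q ∉ g.pts) hall.2
      (by
        intro q hq
        rw [Finset.mem_filter] at hq
        rw [List.mem_filter]
        refine ⟨h1 q hq.1, ?_⟩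
        simp only [List.contains_iff_mem, Bool.not_eq_true', Bool.eq_false_iff, ne_eq]
        exact hq.2)
      (by
        intro q hq
        rw [Finset.mem_filter] at hq
        exact h2 q hq.1)
    have h4 : (F.filter fun q => q ∈ g.pts).card ≤ g.pts.length - 1 := by
      have hs : (F.filter fun q => q ∈ g.pts) ⊆ g.pts.toFinset.erase p := by
        intro q hq
        rw [Finset.mem_filter] at hq
        rw [Finset.mem_erase, List.mem_toFinset]
        exact ⟨fun h => hpF (h ▸ hq.1), hq.2⟩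
      refine (Finset.card_le_card hs).trans ?_
      rw [Finset.card_erase_of_mem (List.mem_toFinset.2 hp)]
      exact Nat.sub_le_sub_right (List.toFinset_card_le _) 1
    have h5 := Finset.card_filter_add_card_filter_not (s := F) (fun q => q ∈ g.pts)
    show F.card ≤ (g.pts.length - 1) + bd _ gs
    omega

lemma check_sound (K : ℕ) (num den : ℤ) (hden : 0 < den) (hR : 4 * num ≤ 75 * den) (x y : ℝ)
    (hx0 : 0 ≤ x) (hx1 : x ≤ 1) (hy0 : 0 ≤ y) (hy1 : y ≤ 1) (F : Finset (ℤ × ℤ))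
    (hF : ∀ p ∈ F, (den : ℝ) * Qr (p.1 - x) (p.2 - y) < num) (t : Cert) :
    ∀ sc S T : ℤ, 0 < sc → check K num den t sc S T = true →
      2 * (S : ℝ) ≤ sc * x → sc * x ≤ 2 * S + 2 → 2 * (T : ℝ) ≤ sc * y → sc * y ≤ 2 * T + 2 →
      F.card ≤ K := by
  induction t with
  | leaf gs =>
    intro sc S T hsc hc h1 h2 h3 h4
    simp only [check, Bool.and_eq_true, decide_eq_true_eq] at hc
    refine le_trans (card_le_bd num den hden x y gs _ F hc.1 ?_ hF) hc.2
    intro p hp
    exact mem_cand num den sc S T x y hden hR hx0 hx1 hy0 hy1 hsc h1 h2 h3 h4 p (hF p hp)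
  | split a b c d iha ihb ihc ihd =>
    intro sc S T hsc hc h1 h2 h3 h4
    simp only [check, Bool.and_eq_true] at hc
    obtain ⟨⟨⟨ca, cb⟩, cc⟩, cd⟩ := hc
    rcases le_total ((sc : ℝ) * x) (2 * S + 1) with hx | hx <;>
    rcases le_total ((sc : ℝ) * y) (2 * T + 1) with hy | hy
    · exact iha _ _ _ (by omega) ca (by push_cast; linarith) (by push_cast; linarith)
        (by push_cast; linarith) (by push_cast; linarith)
    · exact ihb _ _ _ (by omega) cb (by push_cast; linarith) (by push_cast; linarith)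
        (by push_cast; linarith) (by push_cast; linarith)
    · exact ihc _ _ _ (by omega) cc (by push_cast; linarith) (by push_cast; linarith)
        (by push_cast; linarith) (by push_cast; linarith)
    · exact ihd _ _ _ (by omega) cd (by push_cast; linarith) (by push_cast; linarith)
        (by push_cast; linarith) (by push_cast; linarith)

/-- every open disc of squared radius `num/den` has at most `K` points of the triangular lattice -/
def DiscBound (K : ℕ) (R : ℝ) : Prop :=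
  ∀ (x y : ℝ) (F : Finset (ℤ × ℤ)), (∀ p ∈ F, Qr (p.1 - x) (p.2 - y) < R) → F.card ≤ K

lemma discBound_of_check (K : ℕ) (num den : ℤ) (hden : 0 < den) (hR : 4 * num ≤ 75 * den)
    (t : Cert) (ht : check K num den t 2 0 0 = true) : DiscBound K ((num : ℝ) / den) := by
  intro x y F hF
  have hdr : (0 : ℝ) < den := by exact_mod_cast hden
  let sh : (ℤ × ℤ) ↪ (ℤ × ℤ) := ⟨fun p => (p.1 - ⌊x⌋, p.2 - ⌊y⌋), by
    intro p q h
    simp only [Prod.mk.injEq] at h
    exact Prod.ext (by omega) (by omega)⟩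
  have h := check_sound K num den hden hR (Int.fract x) (Int.fract y) (Int.fract_nonneg x)
    (Int.fract_lt_one x).le (Int.fract_nonneg y) (Int.fract_lt_one y).le (F.map sh) ?_ t 2 0 0
    (by norm_num) ht (by push_cast; linarith [Int.fract_nonneg x])
    (by push_cast; linarith [Int.fract_lt_one x]) (by push_cast; linarith [Int.fract_nonneg y])
    (by push_cast; linarith [Int.fract_lt_one y])
  · rwa [Finset.card_map] at h
  · intro p hp
    rw [Finset.mem_map] at hp
    obtain ⟨q, hq, rfl⟩ := hp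
    have e1 : (((sh q).1 : ℤ) : ℝ) - Int.fract x = q.1 - x := by
      show (((q.1 - ⌊x⌋ : ℤ)) : ℝ) - Int.fract x = q.1 - x
      push_cast
      linarith [Int.floor_add_fract x]
    have e2 : (((sh q).2 : ℤ) : ℝ) - Int.fract y = q.2 - y := by
      show (((q.2 - ⌊y⌋ : ℤ)) : ℝ) - Int.fract y = q.2 - y
      push_cast
      linarith [Int.floor_add_fract y]
    rw [e1, e2]
    have := hF q hq
    rw [lt_div_iff₀ hdr] at this
    linarith

end Pool.Agent.Lib.MP_962d12_co
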