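import Pool.Agent.Lib.MP_962d12_co.Sector

set_option autoImplicit false

open MeasureTheory Complex Set Real

namespace Pool.Agent.Lib.MP_962d12_co

/-- `ρ = 2 / √3` -/
noncomputable def rho : ℝ := 2 / Real.sqrt 3

lemma rho_pos : 0 < rho := by unfold rho; positivity

lemma rho_sq : rho ^ 2 = 4 / 3 := by
  unfold rho
  rw [div_pow, Real.sq_sqrt (by norm_num)]
  norm_num

/-- segment cut off by the perpendicular bisector of `0` and `c` -/
def seg (c : ℂ) : Set ℂ := {x | ‖x‖ < rho ∧ ‖c‖ ^ 2 / 2 ≤ (x * (starRingEnd ℂ) c).re}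

/-- the sector spanned by that segment -/
def sec (c : ℂ) : Set ℂ := {x | ‖x‖ < rho ∧ ‖x‖ * (‖c‖ ^ 2 / (2 * rho)) < (x * (starRingEnd ℂ) c).re}

lemma measurableSet_seg (c : ℂ) : MeasurableSet (seg c) := by
  have h1 : MeasurableSet {x : ℂ | ‖x‖ < rho} := (isOpen_lt continuous_norm continuous_const).measurableSet
  have h2 : MeasurableSet {x : ℂ | ‖c‖ ^ 2 / 2 ≤ (x * (starRingEnd ℂ) c).re} := by
    apply IsClosed.measurableSet
    exact isClosed_le continuous_const (by fun_prop)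
  exact h1.inter h2

lemma measurableSet_sec (c : ℂ) : MeasurableSet (sec c) := by
  have h1 : MeasurableSet {x : ℂ | ‖x‖ < rho} := (isOpen_lt continuous_norm continuous_const).measurableSet
  have h2 : MeasurableSet {x : ℂ | ‖x‖ * (‖c‖ ^ 2 / (2 * rho)) < (x * (starRingEnd ℂ) c).re} := by
    apply IsOpen.measurableSet
    exact isOpen_lt (by fun_prop) (by fun_prop)
  exact h1.inter h2

lemma seg_subset_sec (c : ℂ) (hc : c ≠ 0) : seg c ⊆ sec c := by
  rintro x ⟨h1, h2⟩
  refine ⟨h1, lt_of_lt_of_le ?_ h2⟩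
  have hρ := rho_pos
  have hc' : 0 < ‖c‖ := norm_pos_iff.2 hc
  rw [mul_div_assoc', div_lt_div_iff₀ (by positivity) (by norm_num)]
  have : 0 < ‖c‖ ^ 2 := by positivity
  nlinarith

lemma seg_empty (c : ℂ) (hc : 2 * rho ≤ ‖c‖) : seg c = ∅ := by
  apply eq_empty_of_forall_notMem
  rintro x ⟨h1, h2⟩
  have h3 : (x * (starRingEnd ℂ) c).re ≤ ‖x‖ * ‖c‖ := by
    refine (Complex.re_le_norm _).trans (le_of_eq ?_)
    rw [norm_mul, Complex.norm_conj]
  have hρ := rho_pos
  have hc' : 0 < ‖c‖ := by linarith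
  have h4 : ‖x‖ * ‖c‖ < rho * ‖c‖ := mul_lt_mul_of_pos_right h1 hc'
  nlinarith

/-- the constant `3√3/(2π)` -/
noncomputable def kap : ℝ := 3 * Real.sqrt 3 / (2 * π)

lemma kap_pos : 0 < kap := by unfold kap; positivity

lemma kap_le_one : kap ≤ 1 := by
  unfold kap
  have h := sin_ge (π / 3) (by positivity) le_rfl
  rw [Real.sin_pi_div_three] at h
  have hpi := Real.pi_gt_three
  have h3 : Real.sqrt 3 < 1.8 := by
    rw [Real.sqrt_lt' (by norm_num)]
    norm_num
  rw [div_le_one (by positivity)]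
  linarith

lemma volume_seg_le (c : ℂ) (h2 : 2 ≤ ‖c‖) (h3 : ‖c‖ < 2 * rho) :
    volume (seg c) ≤ ENNReal.ofReal (1 - kap) * volume (sec c) := by
  have hρ := rho_pos
  have hc' : 0 < ‖c‖ := by linarith
  have hc0 : c ≠ 0 := norm_pos_iff.1 hc'
  set q : ℝ := ‖c‖ / (2 * rho) with hq
  have hq1 : q < 1 := by rw [hq, div_lt_one (by positivity)]; exact h3
  have hs3 : 0 < Real.sqrt 3 := by positivity
  have hs33 : Real.sqrt 3 ^ 2 = 3 := Real.sq_sqrt (by norm_num)
  have hq2 : Real.sqrt 3 / 2 ≤ q := by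
    rw [hq, rho, le_div_iff₀ (by positivity)]
    have : Real.sqrt 3 / 2 * (2 * (2 / Real.sqrt 3)) = 2 := by field_simp
    linarith
  have hq0 : 0 < q := by positivity
  set θ : ℝ := Real.arccos q with hθ
  have hcos : Real.cos θ = q := Real.cos_arccos (by linarith) hq1.le
  have hθ0 : 0 < θ := Real.arccos_pos.2 hq1
  have hθ1 : θ ≤ π / 6 := by
    have h : Real.arccos (Real.cos (π / 6)) = π / 6 :=
      Real.arccos_cos (by positivity) (by linarith [Real.pi_pos])
    rw [hθ, ← h]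
    apply Real.arccos_le_arccos
    rw [Real.cos_pi_div_six]
    exact hq2
  have hpi := Real.pi_pos
  -- the rotation
  have hu : ‖c / (‖c‖ : ℂ)‖ = 1 := by
    rw [norm_div, Complex.norm_real, norm_norm, div_self hc'.ne']
  let u : Circle := ⟨c / (‖c‖ : ℂ), mem_sphere_zero_iff_norm.2 hu⟩
  have hmp : MeasurePreserving (rotation u) volume volume := (rotation u).measurePreserving
  have hrot : ∀ x : ℂ, (rotation u x * (starRingEnd ℂ) c).re = ‖c‖ * x.re := by
    intro x
    have h1 : rotation u x * (starRingEnd ℂ) c = (‖c‖ : ℂ) * x := by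
      rw [rotation_apply]
      show c / (‖c‖ : ℂ) * x * (starRingEnd ℂ) c = _
      have h5 : c * (starRingEnd ℂ) c = ((‖c‖ : ℝ) : ℂ) ^ 2 := by
        rw [Complex.mul_conj, Complex.normSq_eq_norm_sq]; push_cast; ring
      have h6 : (‖c‖ : ℂ) ≠ 0 := by exact_mod_cast hc'.ne'
      calc c / (‖c‖ : ℂ) * x * (starRingEnd ℂ) c = (c * (starRingEnd ℂ) c) * x / (‖c‖ : ℂ) := by ring
        _ = _ := by rw [h5]; field_simp
    rw [h1, Complex.re_ofReal_mul]
  have hnorm : ∀ x : ℂ, ‖rotation u x‖ = ‖x‖ := fun x => (rotation u).norm_map x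
  have hsec : (rotation u) ⁻¹' (sec c) = sector rho θ := by
    ext x
    show (‖rotation u x‖ < rho ∧ ‖rotation u x‖ * (‖c‖ ^ 2 / (2 * rho)) <
      (rotation u x * (starRingEnd ℂ) c).re) ↔ (‖x‖ < rho ∧ ‖x‖ * Real.cos θ < x.re)
    rw [hrot, hnorm, hcos]
    have h7 : ‖x‖ * (‖c‖ ^ 2 / (2 * rho)) = ‖c‖ * (‖x‖ * q) := by rw [hq]; ring
    rw [h7, mul_lt_mul_iff_right₀ hc']
  have hseg : (rotation u) ⁻¹' (seg c) ⊆ sector rho θ \ tri rho θ := by
    rintro x ⟨ha, hb⟩
    rw [hnorm] at ha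
    rw [hrot] at hb
    have h8 : rho * q ≤ x.re := by
      rw [hq]
      have : rho * (‖c‖ / (2 * rho)) = ‖c‖ / 2 := by field_simp
      rw [this]
      by_contra hcon
      push Not at hcon
      have := mul_lt_mul_of_pos_left hcon hc'
      nlinarith
    refine ⟨⟨ha, ?_⟩, ?_⟩
    · rw [hcos]
      exact lt_of_lt_of_le (mul_lt_mul_of_pos_right ha hq0) h8
    · rintro ⟨_, h9⟩
      rw [hcos] at h9
      linarith
  have hvs : volume (sec c) = ENNReal.ofReal (θ * rho ^ 2) := by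
    rw [← hmp.measure_preimage (measurableSet_sec c).nullMeasurableSet, hsec,
      volume_sector rho θ hρ hθ0 (by linarith)]
  have htri : tri rho θ ⊆ sector rho θ := by
    rintro x ⟨ha, hb⟩
    refine ⟨?_, ha⟩
    rw [hcos] at ha hb
    exact lt_of_mul_lt_mul_right (ha.trans hb) hq0.le
  have hvt := volume_tri rho θ hρ hθ0 (by linarith)
  calc volume (seg c) = volume ((rotation u) ⁻¹' (seg c)) :=
        (hmp.measure_preimage (measurableSet_seg c).nullMeasurableSet).symm
    _ ≤ volume (sector rho θ \ tri rho θ) := measure_mono hseg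
    _ = volume (sector rho θ) - volume (tri rho θ) :=
        measure_sdiff htri (measurableSet_tri _ _).nullMeasurableSet (by rw [hvt]; exact ENNReal.ofReal_ne_top)
    _ = ENNReal.ofReal (θ * rho ^ 2 - rho ^ 2 * (Real.sin θ * Real.cos θ)) := by
        rw [hvt, volume_sector rho θ hρ hθ0 (by linarith), ENNReal.ofReal_sub]
        have h10 : 0 ≤ Real.sin θ := Real.sin_nonneg_of_nonneg_of_le_pi hθ0.le (by linarith)
        rw [hcos]
        positivity
    _ ≤ ENNReal.ofReal ((1 - kap) * (θ * rho ^ 2)) := by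
        apply ENNReal.ofReal_le_ofReal
        have h11 := sin_ge (2 * θ) (by linarith) (by linarith)
        rw [Real.sin_two_mul] at h11
        have h12 : θ * kap ≤ Real.sin θ * Real.cos θ := by
          unfold kap; linarith
        have h13 : 0 < rho ^ 2 := by positivity
        nlinarith
    _ = ENNReal.ofReal (1 - kap) * volume (sec c) := by
        rw [hvs, ENNReal.ofReal_mul (by linarith [kap_le_one])]

/-- the sum of squared mutual distances of three points -/
lemma three_pts (p q r : ℂ) :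
    ‖p - q‖ ^ 2 + ‖q - r‖ ^ 2 + ‖p - r‖ ^ 2 ≤ 3 * (‖p‖ ^ 2 + ‖q‖ ^ 2 + ‖r‖ ^ 2) := by
  simp only [← Complex.normSq_eq_norm_sq, Complex.normSq_apply, Complex.sub_re, Complex.sub_im]
  nlinarith [sq_nonneg (p.re + q.re + r.re), sq_nonneg (p.im + q.im + r.im)]

lemma sec_disjoint (c c' : ℂ) (h1 : 2 ≤ ‖c‖) (h2 : 2 ≤ ‖c'‖) (h3 : 2 ≤ ‖c - c'‖) :
    Disjoint (sec c) (sec c') := by
  rw [Set.disjoint_left]
  rintro x ⟨hx1, hx2⟩ ⟨_, hx3⟩
  have hρ := rho_pos
  have hx0 : 0 < ‖x‖ := by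
    rcases eq_or_ne x 0 with h | h
    · rw [h] at hx2; simp at hx2
    · exact norm_pos_iff.2 h
  have hx0' : (‖x‖ : ℂ) ≠ 0 := by exact_mod_cast hx0.ne'
  set e : ℂ := ((rho / ‖x‖ : ℝ) : ℂ) * x with he
  have hen : ‖e‖ = rho := by
    rw [he, norm_mul, Complex.norm_real, Real.norm_eq_abs, abs_of_pos (by positivity)]
    field_simp
  have key : ∀ b : ℂ, ‖x‖ * (‖b‖ ^ 2 / (2 * rho)) < (x * (starRingEnd ℂ) b).re →
      ‖b - e‖ ^ 2 < rho ^ 2 := by
    intro b hb
    have h5 : (e * (starRingEnd ℂ) b).re = rho / ‖x‖ * (x * (starRingEnd ℂ) b).re := by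
      rw [he, mul_assoc, Complex.re_ofReal_mul]
    have h6 : ‖b‖ ^ 2 / 2 < (e * (starRingEnd ℂ) b).re := by
      rw [h5]
      have : ‖b‖ ^ 2 / 2 = rho / ‖x‖ * (‖x‖ * (‖b‖ ^ 2 / (2 * rho))) := by field_simp
      rw [this]
      exact mul_lt_mul_of_pos_left hb (by positivity)
    have h7 : ‖b - e‖ ^ 2 = ‖b‖ ^ 2 + ‖e‖ ^ 2 - 2 * (e * (starRingEnd ℂ) b).re := by
      simp only [← Complex.normSq_eq_norm_sq, Complex.normSq_apply, Complex.sub_re, Complex.sub_im,
        Complex.mul_re, Complex.conj_re, Complex.conj_im]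
      ring
    rw [h7, hen]
    linarith
  have k1 := key c hx2
  have k2 := key c' hx3
  have k3 := three_pts (0 - e) (c - e) (c' - e)
  have e1 : (0 - e) - (c - e) = -c := by ring
  have e2 : (c - e) - (c' - e) = c - c' := by ring
  have e3 : (0 - e) - (c' - e) = -c' := by ring
  rw [e1, e2, e3, norm_neg, norm_neg, zero_sub, norm_neg, hen] at k3
  have hr := rho_sq
  nlinarith

/-- truncated Voronoi cell -/
def cell {ι : Type} (c : ι → ℂ) (i : ι) : Set ℂ :=
  {x | ‖x - c i‖ < rho ∧ ∀ j, j ≠ i → ‖x - c i‖ < ‖x - c j‖}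

lemma cell_disjoint {ι : Type} (c : ι → ℂ) : Pairwise fun i j => Disjoint (cell c i) (cell c j) := by
  intro i j hij
  rw [Set.disjoint_left]
  rintro x ⟨_, h1⟩ ⟨_, h2⟩
  exact lt_asymm (h1 j hij.symm) (h2 i hij)

lemma measurableSet_cell {ι : Type} [Countable ι] (c : ι → ℂ) (i : ι) : MeasurableSet (cell c i) := by
  have : cell c i = {x | ‖x - c i‖ < rho} ∩ ⋂ j : ι, ⋂ _ : j ≠ i, {x | ‖x - c i‖ < ‖x - c j‖} := by
    ext x
    simp [cell]
  rw [this]
  apply MeasurableSet.inter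
  · exact (isOpen_lt (by fun_prop) continuous_const).measurableSet
  · apply MeasurableSet.iInter
    intro j
    apply MeasurableSet.iInter
    intro _
    exact (isOpen_lt (by fun_prop) (by fun_prop)).measurableSet

lemma volume_cell {ι : Type} [Countable ι] (c : ι → ℂ)
    (hc : ∀ i j, i ≠ j → 2 ≤ ‖c i - c j‖) (i : ι) :
    ENNReal.ofReal (2 * Real.sqrt 3) ≤ volume (cell c i) := by
  have hρ := rho_pos
  let J := {j : ι // j ≠ i ∧ ‖c j - c i‖ < 2 * rho}
  let B : Set ℂ := Metric.ball 0 rho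
  have hB : volume B = ENNReal.ofReal (π * rho ^ 2) := by
    rw [Complex.volume_ball, ← ENNReal.ofReal_pow hρ.le, mul_comm, ENNReal.ofReal_mul Real.pi_pos.le]
    congr 1
    have hpi : (π : ℝ) = ((NNReal.pi : NNReal) : ℝ) := rfl
    rw [hpi, ENNReal.ofReal_coe_nnreal]
  -- sum of sectors
  have hsum : ∑' j : J, volume (sec (c j.1 - c i)) ≤ volume B := by
    rw [← measure_iUnion]
    · apply measure_mono
      apply iUnion_subset
      rintro j x ⟨hx, _⟩
      exact mem_ball_zero_iff.2 hx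
    · intro j k hjk
      apply sec_disjoint
      · exact hc _ _ j.2.1
      · exact hc _ _ k.2.1
      · have : (c j.1 - c i) - (c k.1 - c i) = c j.1 - c k.1 := by ring
        rw [this]
        exact hc _ _ (fun h => hjk (Subtype.ext h))
    · intro j
      exact measurableSet_sec _
  have hseg : volume (⋃ j : J, seg (c j.1 - c i)) ≤ ENNReal.ofReal (1 - kap) * volume B := by
    calc volume (⋃ j : J, seg (c j.1 - c i)) ≤ ∑' j : J, volume (seg (c j.1 - c i)) :=
          measure_iUnion_le _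
      _ ≤ ∑' j : J, ENNReal.ofReal (1 - kap) * volume (sec (c j.1 - c i)) :=
          ENNReal.tsum_le_tsum fun j => volume_seg_le _ (hc _ _ j.2.1) j.2.2
      _ = ENNReal.ofReal (1 - kap) * ∑' j : J, volume (sec (c j.1 - c i)) := ENNReal.tsum_mul_left
      _ ≤ _ := by gcongr
  -- the cell, translated
  have hsub : B \ (⋃ j : J, seg (c j.1 - c i)) ⊆ (fun x => x + c i) ⁻¹' cell c i := by
    rintro x ⟨hx1, hx2⟩
    have hx1' : ‖x‖ < rho := mem_ball_zero_iff.1 hx1
    refine ⟨?_, ?_⟩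
    · simpa using hx1'
    · intro j hj
      by_contra hcon
      push Not at hcon
      simp only [add_sub_cancel_right] at hcon
      have h7 : ‖x + c i - c j‖ ^ 2 = ‖x‖ ^ 2 + ‖c j - c i‖ ^ 2
          - 2 * (x * (starRingEnd ℂ) (c j - c i)).re := by
        simp only [← Complex.normSq_eq_norm_sq, Complex.normSq_apply, Complex.sub_re, Complex.sub_im,
          Complex.mul_re, Complex.conj_re, Complex.conj_im, Complex.add_re, Complex.add_im]
        ring
      have h8 : ‖x + c i - c j‖ ^ 2 ≤ ‖x‖ ^ 2 := pow_le_pow_left₀ (norm_nonneg _) hcon 2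
      have hin : x ∈ seg (c j - c i) := ⟨hx1', by linarith⟩
      by_cases hJ : ‖c j - c i‖ < 2 * rho
      · exact hx2 (mem_iUnion.2 ⟨⟨j, hj, hJ⟩, hin⟩)
      · rw [seg_empty _ (not_lt.1 hJ)] at hin
        exact hin
  have hmt : volume ((fun x => x + c i) ⁻¹' cell c i) = volume (cell c i) :=
    measure_preimage_add_right volume (c i) (cell c i)
  have hmul : ENNReal.ofReal (2 * Real.sqrt 3) = ENNReal.ofReal (π * rho ^ 2) -
      ENNReal.ofReal (1 - kap) * ENNReal.ofReal (π * rho ^ 2) := by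
    have hk := kap_le_one
    rw [← ENNReal.ofReal_mul (by linarith), ← ENNReal.ofReal_sub]
    · congr 1
      have h1 : π * rho ^ 2 - (1 - kap) * (π * rho ^ 2) = kap * (π * rho ^ 2) := by ring
      rw [h1, rho_sq]
      unfold kap
      have := Real.pi_pos
      field_simp
      norm_num
    · have := Real.pi_pos
      have : 0 ≤ 1 - kap := by linarith
      positivity
  calc ENNReal.ofReal (2 * Real.sqrt 3) = volume B - ENNReal.ofReal (1 - kap) * volume B := by
        rw [hB, hmul]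
    _ ≤ volume B - volume (⋃ j : J, seg (c j.1 - c i)) := tsub_le_tsub_left hseg _
    _ ≤ volume (B \ (⋃ j : J, seg (c j.1 - c i))) := le_measure_sdiff
    _ ≤ volume ((fun x => x + c i) ⁻¹' cell c i) := measure_mono hsub
    _ = volume (cell c i) := hmt

end Pool.Agent.Lib.MP_962d12_co
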