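import Pool.Agent.Lib.MP_962d12_co.Neg

set_option autoImplicit false

open MeasureTheory Complex Set Real

namespace Pool.Agent.Lib.MP_962d12_co

/-- for every packing of unit disks with at least one disk there is a point at distance at least
`ρ = 2/√3` from all centres -/
theorem exists_hole {ι : Type} (c : ι → ℂ) (hc : ∀ i j, i ≠ j → 2 ≤ ‖c i - c j‖) (i₀ : ι) :
    ∃ v : ℂ, ∀ i, rho ≤ ‖v - c i‖ := by
  have hρ := rho_pos
  by_contra hcon
  push Not at hcon
  choose g hg using hcon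
  have hS : IsPreconnected (Metric.sphere (c i₀) rho) := by
    apply isPreconnected_sphere
    rw [Complex.rank_real_complex]
    exact_mod_cast one_lt_two
  let U : ι → Set ℂ := fun i => {v | ‖v - c i‖ < rho}
  have hU : ∀ i, IsOpen (U i) := fun i => isOpen_lt (by fun_prop) continuous_const
  -- a starting point
  set v₀ : ℂ := c i₀ + (rho : ℂ) with hv₀
  have hv₀S : v₀ ∈ Metric.sphere (c i₀) rho := by
    rw [mem_sphere_iff_norm, hv₀, add_sub_cancel_left, Complex.norm_real, Real.norm_eq_abs,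
      abs_of_pos hρ]
  set j := g v₀ with hj
  have hjv : ‖v₀ - c j‖ < rho := hg v₀
  have hji : j ≠ i₀ := by
    intro h
    rw [h] at hjv
    rw [mem_sphere_iff_norm] at hv₀S
    linarith
  let V : Set ℂ := ⋃ i ∈ {i | i ≠ j ∧ i ≠ i₀}, U i
  have hsub : Metric.sphere (c i₀) rho ⊆ U j := by
    by_contra hns
    rw [Set.not_subset] at hns
    obtain ⟨w, hwS, hwj⟩ := hns
    have hcover : Metric.sphere (c i₀) rho ⊆ U j ∪ V := by
      intro v hv
      by_cases h : g v = j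
      · left
        have := hg v
        rw [h] at this
        exact this
      · right
        refine mem_iUnion₂.2 ⟨g v, ⟨h, ?_⟩, hg v⟩
        intro h'
        have := hg v
        rw [h', ← mem_sphere_iff_norm.1 hv] at this
        exact lt_irrefl _ this
    have hV : IsOpen V := isOpen_biUnion fun i _ => hU i
    obtain ⟨x, hxS, hxj, hxV⟩ := hS (U j) V (hU j) hV hcover ⟨v₀, hv₀S, hjv⟩
      ⟨w, hwS, (hcover hwS).resolve_left hwj⟩
    obtain ⟨k, ⟨hkj, hki⟩, hxk⟩ := mem_iUnion₂.1 hxV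
    have k1 : ‖x - c j‖ ^ 2 < rho ^ 2 := pow_lt_pow_left₀ hxj (norm_nonneg _) two_ne_zero
    have k2 : ‖x - c k‖ ^ 2 < rho ^ 2 := pow_lt_pow_left₀ hxk (norm_nonneg _) two_ne_zero
    have k3 := three_pts (x - c i₀) (x - c j) (x - c k)
    have e1 : (x - c i₀) - (x - c j) = c j - c i₀ := by ring
    have e2 : (x - c j) - (x - c k) = c k - c j := by ring
    have e3 : (x - c i₀) - (x - c k) = c k - c i₀ := by ring
    rw [e1, e2, e3, mem_sphere_iff_norm.1 hxS] at k3
    have l1 : (2 : ℝ) ^ 2 ≤ ‖c j - c i₀‖ ^ 2 := pow_le_pow_left₀ (by norm_num) (hc _ _ hji) 2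
    have l2 : (2 : ℝ) ^ 2 ≤ ‖c k - c j‖ ^ 2 := pow_le_pow_left₀ (by norm_num) (hc _ _ hkj) 2
    have l3 : (2 : ℝ) ^ 2 ≤ ‖c k - c i₀‖ ^ 2 := pow_le_pow_left₀ (by norm_num) (hc _ _ hki) 2
    have hr := rho_sq
    linarith
  -- the antipodal point
  have hv₁S : c i₀ - (rho : ℂ) ∈ Metric.sphere (c i₀) rho := by
    rw [mem_sphere_iff_norm, sub_sub_cancel_left, norm_neg, Complex.norm_real, Real.norm_eq_abs,
      abs_of_pos hρ]
  have m1 : ‖v₀ - c j‖ ^ 2 < rho ^ 2 := pow_lt_pow_left₀ hjv (norm_nonneg _) two_ne_zero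
  have m2 : ‖(c i₀ - (rho : ℂ)) - c j‖ ^ 2 < rho ^ 2 :=
    pow_lt_pow_left₀ (hsub hv₁S) (norm_nonneg _) two_ne_zero
  have m3 : ‖v₀ - c j‖ ^ 2 + ‖(c i₀ - (rho : ℂ)) - c j‖ ^ 2 = 2 * rho ^ 2 + 2 * ‖c i₀ - c j‖ ^ 2 := by
    rw [hv₀]
    simp only [← Complex.normSq_eq_norm_sq, Complex.normSq_apply, Complex.sub_re, Complex.sub_im,
      Complex.add_re, Complex.add_im, Complex.ofReal_re, Complex.ofReal_im]
    ring
  have m4 : 0 ≤ ‖c i₀ - c j‖ ^ 2 := by positivity
  linarith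

/-- the covering radius of the triangular lattice -/
lemma exists_near (x y : ℝ) : ∃ a b : ℤ, Qr (a - x) (b - y) ≤ 1 / 3 := by
  have hx0 := Int.fract_nonneg x
  have hx1 := Int.fract_lt_one x
  have hy0 := Int.fract_nonneg y
  have hy1 := Int.fract_lt_one y
  set u := Int.fract x with hu
  set v := Int.fract y with hv
  have key : ∃ a b : ℤ, Qr (a - u) (b - v) ≤ 1 / 3 := by
    by_contra hcon
    push Not at hcon
    have h10 := hcon 1 0
    have h01 := hcon 0 1
    rcases le_total (u + v) 1 with h | h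
    · have h00 := hcon 0 0
      push_cast at h00 h10 h01
      have s1 : (1 - u - v) * Qr (0 - u) (0 - v) + u * Qr (1 - u) (0 - v) + v * Qr (0 - u) (1 - v) =
          (1 - u - v) * (u + v) + u * v := by unfold Qr; ring
      have s2 : (1 - u - v) * (u + v) + u * v ≤ 1 / 3 := by
        nlinarith [sq_nonneg (u - v), sq_nonneg (3 * (u + v) - 2)]
      have s3 : (1 - u - v) * (1 / 3) + u * (1 / 3) + v * (1 / 3) <
          (1 - u - v) * Qr (0 - u) (0 - v) + u * Qr (1 - u) (0 - v) + v * Qr (0 - u) (1 - v) := by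
        have t1 : 0 ≤ (1 - u - v) * (Qr (0 - u) (0 - v) - 1 / 3) := mul_nonneg (by linarith) (by linarith)
        have t2 : 0 ≤ u * (Qr (1 - u) (0 - v) - 1 / 3) := mul_nonneg (by linarith) (by linarith)
        have t3 : 0 ≤ v * (Qr (0 - u) (1 - v) - 1 / 3) := mul_nonneg (by linarith) (by linarith)
        rcases lt_or_eq_of_le (show 0 ≤ 1 - u - v by linarith) with h' | h'
        · have : 0 < (1 - u - v) * (Qr (0 - u) (0 - v) - 1 / 3) := mul_pos h' (by linarith)
          linarith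
        · rcases lt_or_eq_of_le hx0 with h'' | h''
          · have : 0 < u * (Qr (1 - u) (0 - v) - 1 / 3) := mul_pos h'' (by linarith)
            linarith
          · linarith
      linarith
    · have h11 := hcon 1 1
      push_cast at h11 h10 h01
      have s1 : (u + v - 1) * Qr (1 - u) (1 - v) + (1 - v) * Qr (1 - u) (0 - v) +
          (1 - u) * Qr (0 - u) (1 - v) =
          (u + v - 1) * (2 - u - v) + (1 - u) * (1 - v) := by unfold Qr; ring
      have s2 : (u + v - 1) * (2 - u - v) + (1 - u) * (1 - v) ≤ 1 / 3 := by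
        nlinarith [sq_nonneg (u - v), sq_nonneg (3 * (u + v) - 4)]
      have t1 : 0 ≤ (u + v - 1) * (Qr (1 - u) (1 - v) - 1 / 3) := mul_nonneg (by linarith) (by linarith)
      have t2 : 0 < (1 - v) * (Qr (1 - u) (0 - v) - 1 / 3) := mul_pos (by linarith) (by linarith)
      have t3 : 0 < (1 - u) * (Qr (0 - u) (1 - v) - 1 / 3) := mul_pos (by linarith) (by linarith)
      linarith
  obtain ⟨a, b, hab⟩ := key
  refine ⟨a + ⌊x⌋, b + ⌊y⌋, ?_⟩
  have e1 : ((a + ⌊x⌋ : ℤ) : ℝ) - x = a - u := by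
    rw [hu]; push_cast; linarith [Int.floor_add_fract x]
  have e2 : ((b + ⌊y⌋ : ℤ) : ℝ) - y = b - v := by
    rw [hv]; push_cast; linarith [Int.floor_add_fract y]
  rw [e1, e2]
  exact hab

theorem not_cover_small (d : ℝ) (hd : 0 < d) (h1 : d < 2 - Real.sqrt 3) {ι : Type} (c : ι → ℂ)
    (hc : ∀ i j, i ≠ j → 2 ≤ ‖c i - c j‖) :
    ¬ ∀ a b : ℤ, ∃ i, ‖pt d a b - c i‖ ≤ 1 := by
  intro hcov
  obtain ⟨i₀, _⟩ := hcov 0 0
  obtain ⟨v, hv⟩ := exists_hole c hc i₀
  obtain ⟨x, y, hxy⟩ := exists_pt d hd v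
  obtain ⟨a, b, hab⟩ := exists_near x y
  obtain ⟨i, hi⟩ := hcov a b
  have hs3 : 0 < Real.sqrt 3 := by positivity
  have hs33 : Real.sqrt 3 ^ 2 = 3 := Real.sq_sqrt (by norm_num)
  have h2 : ‖pt d a b - v‖ ≤ d / Real.sqrt 3 := by
    have h3 : ‖pt d a b - v‖ ^ 2 ≤ (d / Real.sqrt 3) ^ 2 := by
      rw [hxy, norm_pt_sub, div_pow, hs33]
      have : 0 < d ^ 2 := by positivity
      nlinarith
    exact (abs_le_of_sq_le_sq' h3 (by positivity)).2
  have h4 := hv i
  have h5 : ‖v - c i‖ ≤ ‖pt d a b - v‖ + ‖pt d a b - c i‖ := by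
    have e : v - c i = -(pt d a b - v) + (pt d a b - c i) := by ring
    rw [e]
    refine (norm_add_le _ _).trans ?_
    rw [norm_neg]
  have h6 : d / Real.sqrt 3 + 1 < rho := by
    unfold rho
    rw [lt_div_iff₀ hs3, add_mul, div_mul_cancel₀ _ hs3.ne']
    linarith
  linarith

end Pool.Agent.Lib.MP_962d12_co
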