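import Pool.Agent.Lib.MP_962d12_co.Density
import Pool.Agent.Lib.MP_962d12_co.Count

set_option autoImplicit false

open MeasureTheory Complex Set Real

namespace Pool.Agent.Lib.MP_962d12_co

/-- the complex number with lattice coordinates `x, y`, `d` being the scale -/
noncomputable def pt (d x y : ℝ) : ℂ := ⟨d * (x + y / 2), d * (y * (Real.sqrt 3 / 2))⟩

lemma norm_pt_sub (d x y x' y' : ℝ) :
    ‖pt d x y - pt d x' y'‖ ^ 2 = d ^ 2 * Qr (x - x') (y - y') := by
  have h3 : Real.sqrt 3 * Real.sqrt 3 = 3 := Real.mul_self_sqrt (by norm_num)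
  rw [← Complex.normSq_eq_norm_sq, Complex.normSq_apply]
  simp only [pt, Complex.sub_re, Complex.sub_im]
  unfold Qr
  have : (d * (y * (Real.sqrt 3 / 2)) - d * (y' * (Real.sqrt 3 / 2))) *
      (d * (y * (Real.sqrt 3 / 2)) - d * (y' * (Real.sqrt 3 / 2))) =
      d ^ 2 * (y - y') ^ 2 * (Real.sqrt 3 * Real.sqrt 3) / 4 := by ring
  rw [this, h3]
  ring

lemma exists_pt (d : ℝ) (hd : 0 < d) (z : ℂ) : ∃ x y : ℝ, z = pt d x y := by
  have h3 : Real.sqrt 3 ≠ 0 := by positivity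
  refine ⟨z.re / d - (z.im / (d * (Real.sqrt 3 / 2))) / 2, z.im / (d * (Real.sqrt 3 / 2)), ?_⟩
  apply Complex.ext
  · show z.re = d * (z.re / d - (z.im / (d * (Real.sqrt 3 / 2))) / 2 +
      (z.im / (d * (Real.sqrt 3 / 2))) / 2)
    field_simp
    ring
  · show z.im = d * ((z.im / (d * (Real.sqrt 3 / 2))) * (Real.sqrt 3 / 2))
    field_simp

lemma volume_rect (A B : ℝ) (hA : 0 ≤ A) :
    volume {z : ℂ | |z.re| ≤ A ∧ |z.im| ≤ B} = ENNReal.ofReal ((2 * A) * (2 * B)) := by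
  have h : {z : ℂ | |z.re| ≤ A ∧ |z.im| ≤ B} = Complex.measurableEquivRealProd ⁻¹'
      (Icc (-A) A ×ˢ Icc (-B) B) := by
    ext z
    show (|z.re| ≤ A ∧ |z.im| ≤ B) ↔ ((-A ≤ z.re ∧ z.re ≤ A) ∧ (-B ≤ z.im ∧ z.im ≤ B))
    rw [abs_le, abs_le]
  rw [h, Complex.volume_preserving_equiv_real_prod.measure_preimage_equiv,
    Measure.volume_eq_prod, Measure.prod_prod, Real.volume_Icc, Real.volume_Icc,
    ← ENNReal.ofReal_mul (by linarith)]
  congr 1
  ring

theorem not_cover_of_disc (K : ℕ) (R : ℝ) (hK : DiscBound K R) (d : ℝ) (hd : 0 < d)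
    (h1 : 1 < d ^ 2 * R) (h2 : K * d ^ 2 < 4) {ι : Type} [Countable ι] (c : ι → ℂ)
    (hc : ∀ i j, i ≠ j → 2 ≤ ‖c i - c j‖) :
    ¬ ∀ a b : ℤ, ∃ i, ‖pt d a b - c i‖ ≤ 1 := by
  classical
  intro hcov
  choose f hf using hcov
  have hρ := rho_pos
  have hs3 : 0 < Real.sqrt 3 := by positivity
  have hK0 : (0 : ℝ) ≤ K := Nat.cast_nonneg _
  set h : ℝ := 1 + rho with hh
  have hh0 : 0 < h := by positivity
  -- the key inequality
  have key : ∀ M : ℕ, ((2 * M + 1 : ℕ) : ℝ) ^ 2 * (2 * Real.sqrt 3) ≤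
      K * ((2 * (d * (M + 1) + h)) * (2 * (d * (M * (Real.sqrt 3 / 2)) + h))) := by
    intro M
    let Z : Finset (ℤ × ℤ) := Finset.Icc (-(M : ℤ)) M ×ˢ Finset.Icc (-(M : ℤ)) M
    have hZ : Z.card = (2 * M + 1) ^ 2 := by
      rw [Finset.card_product, Int.card_Icc]
      have : ((M : ℤ) + 1 - -(M : ℤ)).toNat = 2 * M + 1 := by omega
      rw [this]; ring
    let g : ℤ × ℤ → ι := fun p => f (p.1 - p.2 / 2) p.2
    let I : Finset ι := Z.image g
    have hfib : Z.card ≤ K * I.card := by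
      apply Finset.card_le_mul_card_image
      intro i hi
      obtain ⟨x, y, hxy⟩ := exists_pt d hd (c i)
      let em : (ℤ × ℤ) ↪ (ℤ × ℤ) := ⟨fun p => (p.1 - p.2 / 2, p.2), by
        intro p q hpq
        simp only [Prod.mk.injEq] at hpq
        obtain ⟨hp1, hp2⟩ := hpq
        rw [hp2] at hp1
        exact Prod.ext (by omega) hp2⟩
      have := hK x y ((Z.filter fun p => g p = i).map em) (by
        intro q hq
        rw [Finset.mem_map] at hq
        obtain ⟨p, hp, rfl⟩ := hq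
        rw [Finset.mem_filter] at hp
        have h5 := hf (p.1 - p.2 / 2) p.2
        have h6 : f (p.1 - p.2 / 2) p.2 = i := hp.2
        rw [h6, hxy] at h5
        have h7 : ‖pt d ((p.1 - p.2 / 2 : ℤ) : ℝ) (p.2 : ℝ) - pt d x y‖ ^ 2 ≤ 1 ^ 2 :=
          pow_le_pow_left₀ (norm_nonneg _) h5 2
        rw [norm_pt_sub] at h7
        show Qr (((p.1 - p.2 / 2 : ℤ) : ℝ) - x) ((p.2 : ℝ) - y) < R
        have h8 : 0 < d ^ 2 := by positivity
        have h9 : d ^ 2 * Qr (((p.1 - p.2 / 2 : ℤ) : ℝ) - x) ((p.2 : ℝ) - y) < d ^ 2 * R := by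
          linarith
        exact lt_of_mul_lt_mul_left h9 h8.le)
      rwa [Finset.card_map] at this
    have hIvol : (I.card : ℝ) * (2 * Real.sqrt 3) ≤
        (2 * (d * (M + 1) + h)) * (2 * (d * (M * (Real.sqrt 3 / 2)) + h)) := by
      have hsub : (⋃ i ∈ I, cell c i) ⊆
          {z : ℂ | |z.re| ≤ d * (M + 1) + h ∧ |z.im| ≤ d * (M * (Real.sqrt 3 / 2)) + h} := by
        apply iUnion₂_subset
        intro i hi z hz
        rw [Finset.mem_image] at hi
        obtain ⟨p, hp, rfl⟩ := hi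
        rw [Finset.mem_product, Finset.mem_Icc, Finset.mem_Icc] at hp
        obtain ⟨⟨hp1, hp2⟩, hp3, hp4⟩ := hp
        have h5 : ‖pt d ((p.1 - p.2 / 2 : ℤ) : ℝ) (p.2 : ℝ) - c (g p)‖ ≤ 1 := hf (p.1 - p.2 / 2) p.2
        have h6 : ‖z - c (g p)‖ < rho := hz.1
        have h7 : ‖z - pt d ((p.1 - p.2 / 2 : ℤ) : ℝ) (p.2 : ℝ)‖ ≤ h := by
          have e : z - pt d ((p.1 - p.2 / 2 : ℤ) : ℝ) (p.2 : ℝ) =
            (z - c (g p)) - (pt d ((p.1 - p.2 / 2 : ℤ) : ℝ) (p.2 : ℝ) - c (g p)) := by ring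
          rw [e]
          refine (norm_sub_le _ _).trans ?_
          rw [hh]; linarith
        have h8 := (Complex.abs_re_le_norm _).trans h7
        have h9 := (Complex.abs_im_le_norm _).trans h7
        rw [Complex.sub_re] at h8
        rw [Complex.sub_im] at h9
        have r1 : |(pt d ((p.1 - p.2 / 2 : ℤ) : ℝ) (p.2 : ℝ)).re| ≤ d * (M + 1) := by
          show |d * (((p.1 - p.2 / 2 : ℤ) : ℝ) + (p.2 : ℝ) / 2)| ≤ d * (M + 1)
          rw [abs_mul, abs_of_pos hd]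
          apply mul_le_mul_of_nonneg_left _ hd.le
          have q1 : 2 * (p.2 / 2) ≤ p.2 := by omega
          have q2 : p.2 ≤ 2 * (p.2 / 2) + 1 := by omega
          have q1' : 2 * ((p.2 / 2 : ℤ) : ℝ) ≤ p.2 := by exact_mod_cast q1
          have q2' : (p.2 : ℝ) ≤ 2 * ((p.2 / 2 : ℤ) : ℝ) + 1 := by exact_mod_cast q2
          have q3 : (-(M : ℝ)) ≤ p.1 := by exact_mod_cast hp1
          have q4 : (p.1 : ℝ) ≤ M := by exact_mod_cast hp2
          rw [abs_le]
          rw [Int.cast_sub]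
          constructor <;> linarith
        have r2 : |(pt d ((p.1 - p.2 / 2 : ℤ) : ℝ) (p.2 : ℝ)).im| ≤ d * (M * (Real.sqrt 3 / 2)) := by
          show |d * ((p.2 : ℝ) * (Real.sqrt 3 / 2))| ≤ d * (M * (Real.sqrt 3 / 2))
          rw [abs_mul, abs_of_pos hd, abs_mul, abs_of_pos (by positivity : 0 < Real.sqrt 3 / 2)]
          apply mul_le_mul_of_nonneg_left _ hd.le
          apply mul_le_mul_of_nonneg_right _ (by positivity)
          rw [abs_le]
          exact ⟨by exact_mod_cast hp3, by exact_mod_cast hp4⟩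
        rw [abs_le] at h8 h9 r1 r2
        refine ⟨abs_le.2 ⟨?_, ?_⟩, abs_le.2 ⟨?_, ?_⟩⟩ <;> linarith [h8.1, h8.2, h9.1, h9.2, r1.1, r1.2, r2.1, r2.2]
      have hvol := measure_mono (μ := volume) hsub
      rw [volume_rect _ _ (by positivity), measure_biUnion_finset
        (fun i _ j _ hij => cell_disjoint c hij) (fun i _ => measurableSet_cell c i)] at hvol
      have hlow : ENNReal.ofReal ((I.card : ℝ) * (2 * Real.sqrt 3)) ≤ ∑ i ∈ I, volume (cell c i) := by
        rw [ENNReal.ofReal_mul (Nat.cast_nonneg _), ENNReal.ofReal_natCast, ← nsmul_eq_mul]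
        exact Finset.card_nsmul_le_sum I _ _ (fun i _ => volume_cell c hc i)
      exact (ENNReal.ofReal_le_ofReal_iff (by positivity)).1 (hlow.trans hvol)
    have hfib' : (((2 * M + 1 : ℕ) : ℝ)) ^ 2 ≤ K * I.card := by
      rw [hZ] at hfib
      exact_mod_cast hfib
    calc ((2 * M + 1 : ℕ) : ℝ) ^ 2 * (2 * Real.sqrt 3) ≤ (K * I.card) * (2 * Real.sqrt 3) :=
          mul_le_mul_of_nonneg_right hfib' (by positivity)
      _ = K * (I.card * (2 * Real.sqrt 3)) := by ring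
      _ ≤ _ := mul_le_mul_of_nonneg_left hIvol hK0
  -- contradiction
  set ε : ℝ := 2 * Real.sqrt 3 * (4 - K * d ^ 2) with hε
  have hε0 : 0 < ε := by
    have : 0 < 4 - K * d ^ 2 := by linarith
    positivity
  set C : ℝ := K * (2 * d * (2 * h) + Real.sqrt 3 * d * (2 * d + 2 * h) + (2 * d + 2 * h) * (2 * h)) with hC
  have hC0 : 0 ≤ C := by positivity
  obtain ⟨M, hM⟩ := exists_nat_gt (C / ε)
  have hMpos : (0 : ℝ) < M := lt_of_le_of_lt (by positivity) hM
  have hM1 : (1 : ℝ) ≤ M := by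
    have : 0 < M := by exact_mod_cast hMpos
    exact_mod_cast this
  have hk := key M
  rw [div_lt_iff₀ hε0] at hM
  have hk2 : ε * M * M ≤ C * M := by
    have e1 : K * ((2 * (d * (M + 1) + h)) * (2 * (d * (M * (Real.sqrt 3 / 2)) + h))) =
      2 * Real.sqrt 3 * (K * d ^ 2) * (M * M) + K * (2 * d * (2 * h) + Real.sqrt 3 * d * (2 * d + 2 * h)) * M
        + K * ((2 * d + 2 * h) * (2 * h)) := by ring
    rw [e1] at hk
    push_cast at hk
    have e2 : K * ((2 * d + 2 * h) * (2 * h)) ≤ K * ((2 * d + 2 * h) * (2 * h)) * (M : ℝ) :=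
      le_mul_of_one_le_right (by positivity) hM1
    rw [hε, hC]
    nlinarith [mul_pos hs3 hMpos]
  have hk3 : ε * M ≤ C := le_of_mul_le_mul_right hk2 hMpos
  linarith

end Pool.Agent.Lib.MP_962d12_co
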