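import Mathlib

set_option autoImplicit false

open MeasureTheory Complex Set Real

namespace Pool.Agent.Lib.MP_962d12_co

/-- open circular sector of radius `r` and half-angle `θ` around the positive real axis -/
def sector (r θ : ℝ) : Set ℂ := {x | ‖x‖ < r ∧ ‖x‖ * Real.cos θ < x.re}

/-- the triangle inscribed in the sector -/
def tri (r θ : ℝ) : Set ℂ := {x | ‖x‖ * Real.cos θ < x.re ∧ x.re < r * Real.cos θ}

lemma measurableSet_sector (r θ : ℝ) : MeasurableSet (sector r θ) := by
  have h1 : IsOpen (sector r θ) := by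
    apply IsOpen.inter
    · exact isOpen_lt continuous_norm continuous_const
    · exact isOpen_lt (continuous_norm.mul continuous_const) continuous_re
  exact h1.measurableSet

lemma measurableSet_tri (r θ : ℝ) : MeasurableSet (tri r θ) := by
  have h1 : IsOpen (tri r θ) := by
    apply IsOpen.inter
    · exact isOpen_lt (continuous_norm.mul continuous_const) continuous_re
    · exact isOpen_lt continuous_re continuous_const
  exact h1.measurableSet

lemma volume_sector (r θ : ℝ) (hr : 0 < r) (h0 : 0 < θ) (h1 : θ < π) :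
    volume (sector r θ) = ENNReal.ofReal (θ * r ^ 2) := by
  have h := Complex.lintegral_comp_polarCoord_symm ((sector r θ).indicator 1)
  rw [lintegral_indicator_one (measurableSet_sector r θ)] at h
  rw [← h]
  have h2 : ∫⁻ p in polarCoord.target, ENNReal.ofReal p.1 •
      (sector r θ).indicator (1 : ℂ → ENNReal) (Complex.polarCoord.symm p) =
      ∫⁻ p in polarCoord.target, (Ioo 0 r ×ˢ Ioo (-θ) θ).indicator
        (fun p : ℝ × ℝ => ENNReal.ofReal p.1) p := by
    apply setLIntegral_congr_fun
    · exact polarCoord.open_target.measurableSet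
    · intro p hp
      rw [polarCoord_target] at hp
      obtain ⟨hp1, hp2, hp3⟩ := hp
      have hp1' : 0 < p.1 := hp1
      have hmem : Complex.polarCoord.symm p ∈ sector r θ ↔ p ∈ Ioo 0 r ×ˢ Ioo (-θ) θ := by
        unfold sector
        rw [Set.mem_ofPred_eq, Complex.norm_polarCoord_symm, abs_of_pos hp1']
        have hre : (Complex.polarCoord.symm p).re = p.1 * Real.cos p.2 := by
          rw [Complex.polarCoord_symm_apply, Complex.re_ofReal_mul, Complex.add_re,
            Complex.ofReal_re, Complex.re_ofReal_mul, Complex.I_re]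
          ring
        rw [hre]
        constructor
        · rintro ⟨ha, hb⟩
          have hc : Real.cos θ < Real.cos p.2 := lt_of_mul_lt_mul_left hb hp1'.le
          have hd : |p.2| < θ := by
            by_contra hcon
            push Not at hcon
            have : Real.cos |p.2| ≤ Real.cos θ :=
              Real.cos_le_cos_of_nonneg_of_le_pi h0.le (abs_le.2 ⟨hp2.le, hp3.le⟩) hcon
            rw [Real.cos_abs] at this
            exact absurd hc (not_lt.2 this)
          exact ⟨⟨hp1', ha⟩, abs_lt.1 hd⟩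
        · rintro ⟨⟨ha, hb⟩, hc⟩
          refine ⟨hb, mul_lt_mul_of_pos_left ?_ hp1'⟩
          have hd : |p.2| < θ := abs_lt.2 hc
          rw [← Real.cos_abs p.2]
          exact Real.cos_lt_cos_of_nonneg_of_le_pi (abs_nonneg _) h1.le hd
      by_cases hm : p ∈ Ioo 0 r ×ˢ Ioo (-θ) θ
      · simp only [indicator_of_mem hm, indicator_of_mem (hmem.2 hm), Pi.one_apply, smul_eq_mul,
          mul_one]
      · have : Complex.polarCoord.symm p ∉ sector r θ := fun h' => hm (hmem.1 h')
        simp only [indicator_of_notMem hm, indicator_of_notMem this, smul_eq_mul, mul_zero]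
  rw [h2, setLIntegral_indicator (measurableSet_Ioo.prod measurableSet_Ioo)]
  have h3 : Ioo 0 r ×ˢ Ioo (-θ) θ ∩ polarCoord.target = Ioo 0 r ×ˢ Ioo (-θ) θ := by
    apply inter_eq_left.2
    rw [polarCoord_target]
    rintro p ⟨⟨ha, _⟩, hb, hc⟩
    exact ⟨ha, by linarith, by linarith⟩
  rw [h3, Measure.volume_eq_prod, ← Measure.prod_restrict,
    lintegral_prod _ (by fun_prop)]
  simp only [lintegral_const, Measure.restrict_apply MeasurableSet.univ, univ_inter, Real.volume_Ioo]
  rw [lintegral_mul_const _ (by fun_prop)]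
  have h4 : ∫⁻ x in Ioo 0 r, ENNReal.ofReal x = ENNReal.ofReal (r ^ 2 / 2) := by
    rw [← ofReal_integral_eq_lintegral_ofReal]
    · congr 1
      rw [← integral_Ioc_eq_integral_Ioo, ← intervalIntegral.integral_of_le hr.le, integral_id]
      ring
    · exact (continuous_id.integrableOn_Icc (μ := volume) (a := 0) (b := r)).mono_set
        Ioo_subset_Icc_self
    · filter_upwards [self_mem_ae_restrict measurableSet_Ioo] with x hx
      exact hx.1.le
  rw [h4, ← ENNReal.ofReal_mul (by positivity)]
  congr 1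
  ring

lemma volume_tri (r θ : ℝ) (hr : 0 < r) (h0 : 0 < θ) (h1 : θ < π / 2) :
    volume (tri r θ) = ENNReal.ofReal (r ^ 2 * (Real.sin θ * Real.cos θ)) := by
  have hc : 0 < Real.cos θ := Real.cos_pos_of_mem_Ioo ⟨by linarith [Real.pi_pos], h1⟩
  have hs : 0 < Real.sin θ := Real.sin_pos_of_pos_of_lt_pi h0 (by linarith [Real.pi_pos])
  have h2 : tri r θ = Complex.measurableEquivRealProd ⁻¹'
      (regionBetween (fun X => -(X * Real.tan θ)) (fun X => X * Real.tan θ)
        (Ioo 0 (r * Real.cos θ))) := by
    ext x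
    have hn : ‖x‖ ^ 2 = x.re ^ 2 + x.im ^ 2 := by
      rw [← Complex.normSq_eq_norm_sq, Complex.normSq_apply]; ring
    have hsc : Real.sin θ ^ 2 + Real.cos θ ^ 2 = 1 := Real.sin_sq_add_cos_sq θ
    have ht : Real.tan θ = Real.sin θ / Real.cos θ := Real.tan_eq_sin_div_cos θ
    have hmem : x ∈ Complex.measurableEquivRealProd ⁻¹'
      (regionBetween (fun X => -(X * Real.tan θ)) (fun X => X * Real.tan θ)
        (Ioo 0 (r * Real.cos θ))) ↔ (0 < x.re ∧ x.re < r * Real.cos θ) ∧
          -(x.re * Real.tan θ) < x.im ∧ x.im < x.re * Real.tan θ := Iff.rfl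
    rw [hmem, ← abs_lt]
    have hkey : 0 < x.re → (‖x‖ * Real.cos θ < x.re ↔ |x.im| < x.re * Real.tan θ) := by
      intro hx
      rw [ht, mul_div_assoc', lt_div_iff₀ hc]
      constructor
      · intro h
        apply lt_of_pow_lt_pow_left₀ 2 (by positivity)
        have h' : (‖x‖ * Real.cos θ) ^ 2 < x.re ^ 2 :=
          pow_lt_pow_left₀ h (by positivity) two_ne_zero
        rw [mul_pow, hn] at h'
        rw [mul_pow, mul_pow, sq_abs]
        nlinarith
      · intro h
        apply lt_of_pow_lt_pow_left₀ 2 hx.le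
        have h' : (|x.im| * Real.cos θ) ^ 2 < (x.re * Real.sin θ) ^ 2 :=
          pow_lt_pow_left₀ h (by positivity) two_ne_zero
        rw [mul_pow, mul_pow, sq_abs] at h'
        rw [mul_pow, hn]
        nlinarith
    constructor
    · rintro ⟨ha, hb⟩
      have hx : 0 < x.re := lt_of_le_of_lt (by positivity) ha
      exact ⟨⟨hx, hb⟩, (hkey hx).1 ha⟩
    · rintro ⟨⟨hx, hb⟩, ha⟩
      exact ⟨(hkey hx).2 ha, hb⟩
  rw [h2, Complex.volume_preserving_equiv_real_prod.measure_preimage_equiv,
    Measure.volume_eq_prod, volume_regionBetween_eq_integral]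
  · congr 1
    rw [← integral_Ioc_eq_integral_Ioo, ← intervalIntegral.integral_of_le (by positivity)]
    have : (fun X : ℝ => ((fun X => X * Real.tan θ) - fun X => -(X * Real.tan θ)) X) =
        fun X : ℝ => (2 * Real.tan θ) * X := by
      funext X; simp; ring
    rw [this, intervalIntegral.integral_const_mul, integral_id, Real.tan_eq_sin_div_cos]
    field_simp
    ring
  · exact ((by fun_prop : Continuous fun X : ℝ => -(X * Real.tan θ)).integrableOn_Icc
      (μ := volume) (a := 0) (b := r * Real.cos θ)).mono_set Ioo_subset_Icc_self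
  · exact ((by fun_prop : Continuous fun X : ℝ => (X * Real.tan θ)).integrableOn_Icc
      (μ := volume) (a := 0) (b := r * Real.cos θ)).mono_set Ioo_subset_Icc_self
  · exact measurableSet_Ioo
  · intro X hX
    have : 0 ≤ X * Real.tan θ := mul_nonneg hX.1.le (by
      rw [Real.tan_eq_sin_div_cos]; positivity)
    show -(X * Real.tan θ) ≤ X * Real.tan θ
    linarith

/-- a chord of sin -/
lemma sin_ge (x : ℝ) (h0 : 0 ≤ x) (h1 : x ≤ π / 3) :
    x * (3 * Real.sqrt 3 / (2 * π)) ≤ Real.sin x := by
  have hpi := Real.pi_pos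
  have hconc := strictConcaveOn_sin_Icc.concaveOn
  have h3 : (π / 3 : ℝ) ∈ Icc 0 π := ⟨by positivity, by linarith⟩
  have h4 : (0 : ℝ) ∈ Icc 0 π := ⟨le_rfl, hpi.le⟩
  have ht0 : 0 ≤ x / (π / 3) := by positivity
  have ht1 : x / (π / 3) ≤ 1 := by rw [div_le_one (by positivity)]; exact h1
  have h5 := hconc.2 h3 h4 ht0 (sub_nonneg.2 ht1) (by ring)
  simp only [smul_eq_mul, Real.sin_zero, mul_zero, add_zero, Real.sin_pi_div_three] at h5
  have h6 : x / (π / 3) * (π / 3) = x := by field_simp
  rw [h6] at h5
  refine le_trans (le_of_eq ?_) h5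
  field_simp

end Pool.Agent.Lib.MP_962d12_co
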